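import Pool.Agent.Lib_MP_debdb1_cz.Base

/-!
# Piece ASY2, second part: the counterexample is connected
-/

set_option autoImplicit false

namespace Pool.Agent.QAOA.CX

open Matrix Pool.Agent.QAOA

theorem asyC_compE_connected {m : ℕ} (hm : 2 ≤ m) (E : SimpleGraph (ZMod m))
    (hE : ∀ u : ZMod m, u ≠ u + 1 → E.Adj u (u + 1)) (A : Finset (ZMod m)) : (compE E A).Connected := by
  have hf : Fact (1 < m) := ⟨by omega⟩
  have hnz : NeZero m := ⟨by omega⟩
  have h0 : ∀ n : ℕ, (compE E A).Reachable (Sum.inl 0) (Sum.inl (n : ZMod m)) := by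
    intro n
    induction n with
    | zero => rw [Nat.cast_zero]
    | succ n ih =>
      refine ih.trans (SimpleGraph.Adj.reachable ?_)
      have h1 : E.Adj (n : ZMod m) ((n : ZMod m) + 1) := by
        refine hE _ ?_
        intro h
        exact one_ne_zero (left_eq_add.1 h)
      rw [Nat.cast_succ]
      exact h1
  have h1 : ∀ u : ZMod m, (compE E A).Reachable (Sum.inl 0) (Sum.inl u) := by
    intro u
    have := h0 u.val
    rwa [ZMod.natCast_zmod_val] at this
  have h2 : ∀ x : VA m A, (compE E A).Reachable (Sum.inl 0) x := by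
    rintro (u | p)
    · exact h1 u
    · refine (h1 p.1.1).trans (SimpleGraph.Adj.reachable ?_)
      show p.1.1 = p.1.1
      rfl
  have : Nonempty (VA m A) := ⟨Sum.inl 0⟩
  exact ⟨fun x y => (h2 x).symm.trans (h2 y)⟩

theorem gamG_connected (L : ℕ) [NeZero L] (hL : 3 ≤ L) : (gamG L).Connected :=
  asyC_compE_connected (by omega) (ringG L) (fun _ h => ⟨h, Or.inl rfl⟩) _

end Pool.Agent.QAOA.CX
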