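import Pool.Agent.Lib_MP_debdb1_cz.Res
import Pool.Agent.Lib_MP_debdb1_cx.Gad
import Pool.Agent.Lib_MP_debdb1_cz.AsyC

/-!
# Piece ASY2: the counterexample is asymmetric
-/

set_option autoImplicit false

namespace Pool.Agent.QAOA.CX

open Matrix Pool.Agent.QAOA

theorem asyE_adj_step (L : ℕ) {a b : ZMod (8 * L)} (h : (ringG L).Adj a b)
    (hr : res L b = res L a + 1) : b = a + 1 := by
  have key : ∀ s t : ZMod 8, t = s + 1 → s ≠ t + 1 ∧ t ≠ s + 2 ∧ s ≠ t + 2 ∧
      ¬ (s = 0 ∧ t = s + 3) ∧ ¬ (t = 0 ∧ s = t + 3) ∧ ¬ (s = 1 ∧ t = s + 4) ∧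
      ¬ (t = 1 ∧ s = t + 4) := by decide
  obtain ⟨k1, k2, k3, k4, k5, k6, k7⟩ := key _ _ hr
  have r2 : res L 2 = 2 := map_ofNat (res L) 2
  have r3 : res L 3 = 3 := map_ofNat (res L) 3
  have r4 : res L 4 = 4 := map_ofNat (res L) 4
  obtain ⟨-, h | h | h | h | ⟨h0, h⟩ | ⟨h0, h⟩ | ⟨h0, h⟩ | ⟨h0, h⟩⟩ := h
  · exact h
  · exact absurd (by rw [h, map_add, map_one] : res L a = res L b + 1) k1
  · exact absurd (by rw [h, map_add, r2] : res L b = res L a + 2) k2
  · exact absurd (by rw [h, map_add, r2] : res L a = res L b + 2) k3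
  · exact absurd ⟨h0, (by rw [h, map_add, r3] : res L b = res L a + 3)⟩ k4
  · exact absurd ⟨h0, (by rw [h, map_add, r3] : res L a = res L b + 3)⟩ k5
  · exact absurd ⟨h0, (by rw [h, map_add, r4] : res L b = res L a + 4)⟩ k6
  · exact absurd ⟨h0, (by rw [h, map_add, r4] : res L a = res L b + 4)⟩ k7

theorem gamG_asymmetric (L : ℕ) [NeZero L] (hL : 3 ≤ L) : Asymmetric (gamG L) := by
  classical
  intro σ
  have hA : ∀ p ∈ (posP L).erase 7, res L p = 7 := fun p hp =>
    (Finset.mem_filter.1 (Finset.mem_of_mem_erase hp)).2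
  -- residues are preserved
  have hres : ∀ (r : ZMod 8) (x : VA (8 * L) ((posP L).erase 7)),
      clF L ((posP L).erase 7) (fun s => if s = r then 1 else 0) 0 (σ x) =
        clF L ((posP L).erase 7) (fun s => if s = r then 1 else 0) 0 x := by
    intro r
    exact res_def L hL ((posP L).erase 7) hA {f | ∀ x, f (σ x) = f x} (fun _ => rfl)
      (fun f hf g hg x => by simp only [Pi.add_apply]; rw [hf x, hg x])
      (fun f hf g hg x => by simp only [Pi.mul_apply]; rw [hf x, hg x])
      (by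
        intro f hf x
        have e1 : (∑ y, if (gamG L).Adj (σ x) y then f y else 0) =
            ∑ y, if (gamG L).Adj x y then f y else 0 := by
          rw [← Equiv.sum_comp σ.toEquiv]
          refine Finset.sum_congr rfl fun y _ => ?_
          change (if (gamG L).Adj (σ x) (σ y) then f (σ y) else 0) = _
          rw [hf y]
          by_cases hxy : (gamG L).Adj x y
          · rw [if_pos hxy, if_pos (σ.map_adj_iff.2 hxy)]
          · rw [if_neg hxy, if_neg (fun h => hxy (σ.map_adj_iff.1 h))]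
        exact e1) r
  have hcore : ∀ u : ZMod (8 * L), ∃ w : ZMod (8 * L), σ (Sum.inl u) = Sum.inl w ∧
      res L w = res L u := by
    intro u
    have h := hres (res L u) (Sum.inl u)
    generalize σ (Sum.inl u) = z at h
    rcases z with w | q
    · refine ⟨w, rfl, ?_⟩
      change (if res L w = res L u then (1 : ZMod 2) else 0) =
        (if res L u = res L u then (1 : ZMod 2) else 0) at h
      rw [if_pos rfl] at h
      by_contra hne
      rw [if_neg hne] at h
      exact zero_ne_one h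
    · exfalso
      change (0 : ZMod 2) = (if res L u = res L u then (1 : ZMod 2) else 0) at h
      rw [if_pos rfl] at h
      exact zero_ne_one h
  choose τ hσ hτ using hcore
  have hstep : ∀ u, τ (u + 1) = τ u + 1 := by
    intro u
    have h0 : u ≠ u + 1 := by
      intro h
      have h1 := congrArg (res L) h
      rw [map_add, map_one] at h1
      have key : ∀ s : ZMod 8, s ≠ s + 1 := by decide
      exact key _ h1
    have h1 : (gamG L).Adj (Sum.inl u) (Sum.inl (u + 1)) :=
      show (ringG L).Adj u (u + 1) from ⟨h0, Or.inl rfl⟩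
    have h2 := σ.map_adj_iff.2 h1
    rw [hσ, hσ] at h2
    have h3 : (ringG L).Adj (τ u) (τ (u + 1)) := h2
    refine asyE_adj_step L h3 ?_
    rw [hτ, hτ, map_add, map_one]
  have hnat : ∀ n : ℕ, τ (n : ZMod (8 * L)) = (n : ZMod (8 * L)) + τ 0 := by
    intro n
    induction n with
    | zero => rw [Nat.cast_zero, zero_add]
    | succ n ih => rw [Nat.cast_succ, hstep, ih]; ring
  have hall : ∀ u, τ u = u + τ 0 := by
    intro u
    have h1 := hnat u.val
    rwa [ZMod.natCast_zmod_val] at h1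
  have hnoncore : ∀ (q : {p : ZMod (8 * L) // p ∈ (posP L).erase 7} × Fin 8) (w : ZMod (8 * L)),
      σ (Sum.inr q) ≠ Sum.inl w := by
    intro q w h
    have h1 : σ (Sum.inr q) = σ (Sum.inl (w - τ 0)) := by
      rw [h, hσ, hall, sub_add_cancel]
    have h2 := σ.injective h1
    simp at h2
  have hc : τ 0 = 0 := by
    by_contra hne
    have h7 : 7 + τ 0 ∈ (posP L).erase 7 := by
      refine Finset.mem_erase.2 ⟨fun h => hne ?_, Finset.mem_filter.2 ⟨Finset.mem_univ _, ?_⟩⟩
      · exact add_left_cancel (h.trans (add_zero _).symm)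
      · rw [map_add, hτ, map_zero, add_zero, res_seven]
    have h1 : (gamG L).Adj (Sum.inl (7 + τ 0)) (Sum.inr (⟨7 + τ 0, h7⟩, 0)) :=
      show (7 + τ 0 : ZMod (8 * L)) = 7 + τ 0 from rfl
    obtain ⟨z, hz⟩ := σ.surjective (Sum.inr (⟨7 + τ 0, h7⟩, 0))
    rw [← hz, ← hall 7, ← hσ] at h1
    have h2 := σ.map_adj_iff.1 h1
    rcases z with w | q
    · rw [hσ] at hz
      simp at hz
    · have h3 : (7 : ZMod (8 * L)) = q.1.1 := h2
      have h4 := q.1.2
      rw [← h3] at h4
      exact Finset.notMem_erase _ _ h4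
  have hcore' : ∀ u, σ (Sum.inl u) = Sum.inl u := by
    intro u
    rw [hσ, hall, hc, add_zero]
  have hgad : ∀ (p : {p : ZMod (8 * L) // p ∈ (posP L).erase 7}) (s : Fin 8),
      ∃ t : Fin 8, σ (Sum.inr (p, s)) = Sum.inr (p, t) := by
    intro p s
    have h1 : (gamG L).Adj (Sum.inl p.1) (Sum.inr (p, s)) := show p.1 = p.1 from rfl
    have h2 := σ.map_adj_iff.2 h1
    rw [hcore'] at h2
    generalize hz : σ (Sum.inr (p, s)) = z at h2
    rcases z with w | ⟨q, t⟩
    · exact absurd hz (hnoncore _ _)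
    · have h3 : p.1 = q.1 := h2
      refine ⟨t, ?_⟩
      rw [Subtype.ext h3]
  rintro (u | ⟨p, s⟩)
  · exact hcore' u
  · choose t ht using hgad p
    have h1 : ∀ s, t s = s := by
      refine GS_rigid t ?_ ?_
      · intro s s' h
        have h2 : σ (Sum.inr (p, s)) = σ (Sum.inr (p, s')) := by rw [ht, ht, h]
        have h3 := σ.injective h2
        simpa using h3
      · intro s s' h
        have h2 : (gamG L).Adj (Sum.inr (p, s)) (Sum.inr (p, s')) :=
          show p = p ∧ GS.Adj s s' from ⟨rfl, h⟩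
        have h3 := σ.map_adj_iff.2 h2
        rw [ht, ht] at h3
        exact (show p = p ∧ GS.Adj (t s) (t s') from h3).2
    rw [ht, h1]

end Pool.Agent.QAOA.CX
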