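import Pool.Agent.Lib_MP_debdb1_cx.Base

/-!
# MP_debdb1_mp, connected counterexample: definitions
-/

set_option autoImplicit false

namespace Pool.Agent.QAOA.CX

open Matrix Pool.Agent.QAOA

/-- core graph `E` with gadgets at the positions `A`: all vertices of the gadget `p` are joined to the core vertex `p` -/
def compE {m : ℕ} (E : SimpleGraph (ZMod m)) (A : Finset (ZMod m)) : SimpleGraph (VA m A) where
  Adj x y := match x, y with
    | Sum.inl u, Sum.inl w => E.Adj u w
    | Sum.inl u, Sum.inr p => u = p.1.1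
    | Sum.inr p, Sum.inl u => u = p.1.1
    | Sum.inr p, Sum.inr q => p.1 = q.1 ∧ GS.Adj p.2 q.2
  symm := ⟨by
    rintro (u | p) (w | q) h
    · exact SimpleGraph.Adj.symm h
    · exact h
    · exact h
    · exact ⟨h.1.symm, SimpleGraph.Adj.symm h.2⟩⟩
  loopless := ⟨by
    rintro (u | p) h
    · exact E.loopless.1 u h
    · exact GS.loopless.1 _ h.2⟩

theorem compE_coreG (m : ℕ) (A : Finset (ZMod m)) : compE (coreG m) A = compG m A := rfl

instance instNeZeroEight (L : ℕ) [NeZero L] : NeZero (8 * L) := ⟨by have := NeZero.ne L; omega⟩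

/-- the residue modulo 8 -/
def res (L : ℕ) : ZMod (8 * L) →+* ZMod 8 := ZMod.castHom (Dvd.intro L rfl) (ZMod 8)

/-- the ring of `L` beads: the square of a cycle with periodic chords -/
def ringG (L : ℕ) : SimpleGraph (ZMod (8 * L)) where
  Adj u w := u ≠ w ∧ (w = u + 1 ∨ u = w + 1 ∨ w = u + 2 ∨ u = w + 2 ∨ (res L u = 0 ∧ w = u + 3) ∨
    (res L w = 0 ∧ u = w + 3) ∨ (res L u = 1 ∧ w = u + 4) ∨ (res L w = 1 ∧ u = w + 4))
  symm := ⟨by
    intro u w h
    refine ⟨h.1.symm, ?_⟩
    tauto⟩
  loopless := ⟨fun u h => h.1 rfl⟩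

/-- all gadget positions: one in each bead -/
def posP (L : ℕ) [NeZero L] : Finset (ZMod (8 * L)) := Finset.univ.filter (fun u => res L u = 7)

theorem res_seven (L : ℕ) : res L 7 = 7 := map_ofNat (res L) 7

theorem res_eight (L : ℕ) : res L 8 = 0 := by
  rw [show res L 8 = 8 from map_ofNat (res L) 8]; rfl

theorem seven_mem (L : ℕ) [NeZero L] : (7 : ZMod (8 * L)) ∈ posP L :=
  Finset.mem_filter.2 ⟨Finset.mem_univ _, res_seven L⟩

/-- the graph with all gadgets -/
def hatG (L : ℕ) [NeZero L] : SimpleGraph (VA (8 * L) (posP L)) := compE (ringG L) (posP L)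

/-- the counterexample: the gadget of one bead is missing -/
def gamG (L : ℕ) [NeZero L] : SimpleGraph (VA (8 * L) ((posP L).erase 7)) := compE (ringG L) ((posP L).erase 7)

/-- the rotation by one bead on the gadget positions -/
def sh (L : ℕ) [NeZero L] : Equiv.Perm {p : ZMod (8 * L) // p ∈ posP L} where
  toFun p := ⟨p.1 + 8, Finset.mem_filter.2 ⟨Finset.mem_univ _, by
    rw [map_add, res_eight, add_zero]; exact (Finset.mem_filter.1 p.2).2⟩⟩
  invFun p := ⟨p.1 - 8, Finset.mem_filter.2 ⟨Finset.mem_univ _, by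
    rw [map_sub, res_eight, sub_zero]; exact (Finset.mem_filter.1 p.2).2⟩⟩
  left_inv p := Subtype.ext (add_sub_cancel_right _ _)
  right_inv p := Subtype.ext (sub_add_cancel _ _)

end Pool.Agent.QAOA.CX
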