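import Pool.Agent.Lib_MP_debdb1_cz.Base
import Pool.Agent.Lib_MP_debdb1_cx.Ub1

/-!
# Piece BOX: the full algebra lies in `ℂ H_P + (core operators) ⊗ SS^{⊗ A}` (arbitrary core graph)
-/

set_option autoImplicit false

namespace Pool.Agent.QAOA.CX

open Matrix Pool.Agent.QAOA

section
variable {m : ℕ} [NeZero m] {A : Finset (ZMod m)}

open Classical in
theorem box_HP (E : SimpleGraph (ZMod m)) : HP (compE E A) = emb (cE m A) (HP E) +
    ∑ p : {p : ZMod m // p ∈ A}, pz (Sum.inl p.1 : VA m A) * emb (pE m A p) (∑ s : Fin 8, pz s) + ubH m A := by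
  have e1 : ∀ p : {p : ZMod m // p ∈ A}, pz (Sum.inl p.1 : VA m A) * emb (pE m A p) (∑ s : Fin 8, pz s) =
      ∑ s : Fin 8, pz (Sum.inl p.1) * pz (Sum.inr (p, s) : VA m A) := by
    intro p
    rw [emb_sum, Finset.mul_sum]
    exact Finset.sum_congr rfl fun s _ => by rw [emb_pz]; rfl
  have b2 : ∀ u : ZMod m, ∑ p : {p : ZMod m // p ∈ A}, ∑ s : Fin 8,
      (if (compE E A).Adj (Sum.inl u) (Sum.inr (p, s)) then pz (Sum.inl u) * pz (Sum.inr (p, s)) else 0 : Op (VA m A)) =
      ∑ p : {p : ZMod m // p ∈ A}, ∑ s : Fin 8,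
        if u = p.1 then pz (Sum.inl p.1) * pz (Sum.inr (p, s)) else 0 := by
    intro u
    refine Finset.sum_congr rfl fun p _ => Finset.sum_congr rfl fun s _ => ?_
    by_cases h : u = p.1
    · rw [if_pos h, if_pos (show (compE E A).Adj (Sum.inl u) (Sum.inr (p, s)) from h), h]
    · rw [if_neg h, if_neg (show ¬ (compE E A).Adj (Sum.inl u) (Sum.inr (p, s)) from h)]
  have b3 : ∀ (p : {p : ZMod m // p ∈ A}) (s : Fin 8), ∑ u : ZMod m,
      (if (compE E A).Adj (Sum.inr (p, s)) (Sum.inl u) then pz (Sum.inr (p, s)) * pz (Sum.inl u) else 0 : Op (VA m A)) =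
      pz (Sum.inl p.1) * pz (Sum.inr (p, s)) := by
    intro p s
    rw [Finset.sum_eq_single p.1]
    · rw [if_pos (show (compE E A).Adj (Sum.inr (p, s)) (Sum.inl p.1) from rfl)]
      exact SumP.pz_mul_pz_comm _ _
    · intro u _ hu
      rw [if_neg (show ¬ (compE E A).Adj (Sum.inr (p, s)) (Sum.inl u) from hu)]
    · intro h
      exact absurd (Finset.mem_univ _) h
  have b4 : ∀ (p : {p : ZMod m // p ∈ A}) (s : Fin 8), ∑ q : {p : ZMod m // p ∈ A}, ∑ t : Fin 8,
      (if (compE E A).Adj (Sum.inr (p, s)) (Sum.inr (q, t)) then pz (Sum.inr (p, s)) * pz (Sum.inr (q, t)) else 0 :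
        Op (VA m A)) = ∑ t : Fin 8, if GS.Adj s t then pz (Sum.inr (p, s)) * pz (Sum.inr (p, t)) else 0 := by
    intro p s
    rw [Finset.sum_eq_single p]
    · refine Finset.sum_congr rfl fun t _ => ?_
      by_cases h : GS.Adj s t
      · rw [if_pos h, if_pos (show (compE E A).Adj (Sum.inr (p, s)) (Sum.inr (p, t)) from ⟨rfl, h⟩)]
      · rw [if_neg h, if_neg (show ¬ (compE E A).Adj (Sum.inr (p, s)) (Sum.inr (p, t)) from fun h' => h h'.2)]
    · intro q _ hq
      refine Finset.sum_eq_zero fun t _ => ?_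
      rw [if_neg (show ¬ (compE E A).Adj (Sum.inr (p, s)) (Sum.inr (q, t)) from fun h' => hq h'.1.symm)]
    · intro h
      exact absurd (Finset.mem_univ _) h
  have b5 : ∑ u : ZMod m, ∑ p : {p : ZMod m // p ∈ A}, ∑ s : Fin 8,
      (if u = p.1 then pz (Sum.inl p.1) * pz (Sum.inr (p, s)) else 0 : Op (VA m A)) =
      ∑ p : {p : ZMod m // p ∈ A}, ∑ s : Fin 8, pz (Sum.inl p.1) * pz (Sum.inr (p, s)) := by
    rw [Finset.sum_comm]
    refine Finset.sum_congr rfl fun p _ => ?_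
    rw [Finset.sum_comm]
    refine Finset.sum_congr rfl fun s _ => ?_
    rw [Finset.sum_ite_eq' Finset.univ p.1, if_pos (Finset.mem_univ _)]
  have e2 : ubH m A = (1 / 2 : ℂ) • ∑ p : {p : ZMod m // p ∈ A}, ∑ s : Fin 8, ∑ t : Fin 8,
      (if GS.Adj s t then pz (Sum.inr (p, s)) * pz (Sum.inr (p, t)) else 0 : Op (VA m A)) := by
    rw [ubH, Finset.smul_sum]
    refine Finset.sum_congr rfl fun p _ => ?_
    rw [ub_emb_HP]
    congr 1
    refine Finset.sum_congr rfl fun s _ => Finset.sum_congr rfl fun t _ => ?_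
    by_cases h : GS.Adj s t
    · rw [if_pos h, if_pos h]
      rfl
    · rw [if_neg h, if_neg h]
  rw [e2, ub_emb_HP, Finset.sum_congr rfl fun p _ => e1 p, HP]
  simp only [Fintype.sum_sum_type, Fintype.sum_prod_type]
  rw [Finset.sum_add_distrib, Finset.sum_congr rfl fun u _ => b2 u, b5]
  simp only [Finset.sum_add_distrib, b3, b4]
  simp only [smul_add]
  set S1 : Op (VA m A) := ∑ p : {p : ZMod m // p ∈ A}, ∑ s : Fin 8, pz (Sum.inl p.1) * pz (Sum.inr (p, s)) with hS1
  have e3 : (1 / 2 : ℂ) • S1 + (1 / 2 : ℂ) • S1 = S1 := by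
    rw [← add_smul]
    norm_num
  conv_rhs => rw [← e3]
  have e4 : ∀ a b c : Op (VA m A), a + b + (b + c) = a + (b + b) + c := by
    intro a b c
    abel
  exact e4 _ _ _

theorem box_genC_le (E : SimpleGraph (ZMod m)) : genC (HP (compE E A)) (HM (VA m A)) ≤ ubT m A ⊔ Submodule.span ℂ {ubH m A} := by
  have hH1 : emb (cE m A) (HP E) +
      ∑ p : {p : ZMod m // p ∈ A}, pz (Sum.inl p.1 : VA m A) * emb (pE m A p) (∑ s : Fin 8, pz s) ∈ ubT m A := by
    refine Submodule.add_mem _ (ubT_core _) (Submodule.sum_mem _ fun p _ => ubT_mul ?_ (ubT_gad p ub_Jz_mem))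
    have := ubT_core (A := A) (pz p.1)
    rwa [emb_pz] at this
  have hHM : HM (VA m A) ∈ ubT m A := by
    rw [ub_HM]
    exact Submodule.add_mem _ (ubT_core _) (Submodule.sum_mem _ fun p _ => ubT_gad p GadAux.HM_mem_SS)
  refine SumP.genC_le ?_ (Submodule.mem_sup_left hHM) ?_
  · rw [box_HP]
    exact Submodule.add_mem _ (Submodule.mem_sup_left hH1)
      (Submodule.mem_sup_right (Submodule.mem_span_singleton_self _))
  · intro M hM N hN
    obtain ⟨t, ht, x, hx, rfl⟩ := Submodule.mem_sup.1 hM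
    obtain ⟨c, rfl⟩ := Submodule.mem_span_singleton.1 hx
    obtain ⟨t', ht', x', hx', rfl⟩ := Submodule.mem_sup.1 hN
    obtain ⟨c', rfl⟩ := Submodule.mem_span_singleton.1 hx'
    refine Submodule.mem_sup_left ?_
    have e : (t + c • ubH m A) * (t' + c' • ubH m A) - (t' + c' • ubH m A) * (t + c • ubH m A) =
        (t * t' - t' * t) + c • (ubH m A * t' - t' * ubH m A) - c' • (ubH m A * t - t * ubH m A) := by
      simp only [mul_add, add_mul, smul_mul_assoc, mul_smul_comm, smul_sub]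
      module
    rw [e]
    exact Submodule.sub_mem _ (Submodule.add_mem _ (Submodule.sub_mem _ (ubT_mul ht ht') (ubT_mul ht' ht))
      (Submodule.smul_mem _ c (ubT_br ht'))) (Submodule.smul_mem _ c' (ubT_br ht))

end

theorem box_form {m : ℕ} [NeZero m] (E : SimpleGraph (ZMod m)) (A : Finset (ZMod m)) {n : ℕ} (e : Fin (n + 1) → Op (Fin 8))
    (he : Submodule.span ℂ (Set.range e) = Subalgebra.toSubmodule SS) (z : Op (VA m A))
    (hz : z ∈ genC (HP (compE E A)) (HM (VA m A))) :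
    ∃ (c : ℂ) (O : ({p : ZMod m // p ∈ A} → Fin (n + 1)) → Op (ZMod m)),
      z = c • HP (compE E A) + ∑ α, TP (cE m A) (pE m A) (O α) (fun i => e (α i)) := by
  obtain ⟨t, ht, x, hx, rfl⟩ := Submodule.mem_sup.1 (box_genC_le E hz)
  obtain ⟨c, rfl⟩ := Submodule.mem_span_singleton.1 hx
  have hH1 : emb (cE m A) (HP E) +
      ∑ p : {p : ZMod m // p ∈ A}, pz (Sum.inl p.1 : VA m A) * emb (pE m A p) (∑ s : Fin 8, pz s) ∈ ubT m A := by
    refine Submodule.add_mem _ (ubT_core _) (Submodule.sum_mem _ fun p _ => ubT_mul ?_ (ubT_gad p ub_Jz_mem))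
    have := ubT_core (A := A) (pz p.1)
    rwa [emb_pz] at this
  obtain ⟨O, hO⟩ := ubT_expand n e he (Submodule.sub_mem _ ht (Submodule.smul_mem _ c hH1))
  refine ⟨c, O, ?_⟩
  rw [← hO, box_HP, smul_add]
  abel

end Pool.Agent.QAOA.CX
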