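import Pool.Agent.Lib_MP_debdb1_cz.Base
import Pool.Agent.Lib_MP_debdb1_cx.Hid

/-!
# Piece HIDE: the hidden intertwiner for an arbitrary core graph
-/

set_option autoImplicit false

namespace Pool.Agent.QAOA.CX

open Matrix Pool.Agent.QAOA

section general

variable {V : Type*} [Fintype V] [DecidableEq V]

open Classical in
/-- the diagonal entries of `H_P` -/
private noncomputable def en (G : SimpleGraph V) (x : V → Bool) : ℂ :=
  (1 / 2 : ℂ) * ∑ j, ∑ k, if G.Adj j k then sg (x j) * sg (x k) else 0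

private theorem HP_eq (G : SimpleGraph V) : HP G = Matrix.diagonal (en G) := by
  classical
  unfold HP en
  ext x y
  by_cases h : x = y
  · subst h
    rw [Matrix.diagonal_apply_eq, Matrix.smul_apply, smul_eq_mul, Matrix.sum_apply]
    congr 1
    refine Finset.sum_congr rfl fun j _ => ?_
    rw [Matrix.sum_apply]
    refine Finset.sum_congr rfl fun k _ => ?_
    split_ifs
    · rw [pz, pz, Matrix.diagonal_mul_diagonal, Matrix.diagonal_apply_eq]
    · rfl
  · rw [Matrix.diagonal_apply_ne _ h, Matrix.smul_apply, smul_eq_mul, Matrix.sum_apply]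
    rw [Finset.sum_eq_zero, mul_zero]
    intro j _
    rw [Matrix.sum_apply]
    refine Finset.sum_eq_zero fun k _ => ?_
    split_ifs
    · rw [pz, pz, Matrix.diagonal_mul_diagonal, Matrix.diagonal_apply_ne _ h]
    · rfl

end general

section
variable (m : ℕ) [NeZero m] (E : SimpleGraph (ZMod m)) (A : Finset (ZMod m)) (p : {p : ZMod m // p ∈ A})

/-- the other vertices -/
private def io : VA m (A.erase p.1) → VA m A
  | Sum.inl u => Sum.inl u
  | Sum.inr (q, s) => Sum.inr (⟨q.1, Finset.mem_of_mem_erase q.2⟩, s)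

private theorem io_ne (v : VA m (A.erase p.1)) (s : Fin 8) : io m A p v ≠ Sum.inr (p, s) := by
  rcases v with u | ⟨q, t⟩
  · exact Sum.inl_ne_inr
  · intro h
    have h1 : (⟨q.1, Finset.mem_of_mem_erase q.2⟩ : {p : ZMod m // p ∈ A}) = p := by
      have := Sum.inr_injective h
      exact congrArg Prod.fst this
    exact Finset.ne_of_mem_erase q.2 (congrArg Subtype.val h1)

private theorem io_injective : Function.Injective (io m A p) := by
  rintro (u | ⟨q, t⟩) (w | ⟨r, t'⟩) h
  · simpa [io] using h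
  · simp [io] at h
  · simp [io] at h
  · have h1 := Sum.inr_injective h
    have h2 := congrArg Prod.fst h1
    have h3 := congrArg Prod.snd h1
    have h4 : q.1 = r.1 := congrArg (fun z : {p : ZMod m // p ∈ A} => z.1) h2
    have h5 : q = r := Subtype.ext h4
    have h6 : t = t' := h3
    rw [h5, h6]

private theorem sum_VA (f : VA m A → ℂ) :
    ∑ v, f v = ∑ v, f (io m A p v) + ∑ s : Fin 8, f (Sum.inr (p, s)) := by
  rw [Fintype.sum_sum_type, Fintype.sum_sum_type, add_assoc]
  congr 1
  rw [Fintype.sum_prod_type, Fintype.sum_prod_type]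
  have h1 : ∀ g : {p : ZMod m // p ∈ A} → ℂ, ∑ q, g q =
      ∑ q : {q : ZMod m // q ∈ A.erase p.1}, g ⟨q.1, Finset.mem_of_mem_erase q.2⟩ + g p := by
    intro g
    rw [← Finset.add_sum_erase Finset.univ g (Finset.mem_univ p), add_comm]
    congr 1
    symm
    refine Finset.sum_bij (fun q _ => ⟨q.1, Finset.mem_of_mem_erase q.2⟩) ?_ ?_ ?_ ?_
    · intro q _
      rw [Finset.mem_erase]
      exact ⟨fun h => Finset.ne_of_mem_erase q.2 (congrArg Subtype.val h), Finset.mem_univ _⟩
    · intro a _ b _ h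
      exact Subtype.ext (congrArg (fun z : {p : ZMod m // p ∈ A} => z.1) h)
    · intro b hb
      rw [Finset.mem_erase] at hb
      refine ⟨⟨b.1, Finset.mem_erase.mpr ⟨fun h => hb.1 (Subtype.ext h), b.2⟩⟩, Finset.mem_univ _, rfl⟩
    · intro a _
      rfl
  exact h1 _

private theorem hid_apply (x : VA m A → Bool) (y : VA m (A.erase p.1) → Bool) :
    hid m A p x y = if y = x ∘ io m A p then psi (fun s => x (Sum.inr (p, s))) else 0 := by
  unfold hid
  rw [Matrix.of_apply]
  by_cases h : y = x ∘ io m A p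
  · rw [if_pos h, if_pos]
    subst h
    exact ⟨fun _ => rfl, fun _ _ => rfl⟩
  · rw [if_neg h, if_neg]
    rintro ⟨h1, h2⟩
    apply h
    funext v
    rcases v with u | ⟨q, s⟩
    · exact (h1 u).symm
    · exact (h2 q s).symm

private theorem en_eq (x : VA m A → Bool) :
    en (compE E A) x = en (compE E (A.erase p.1)) (x ∘ io m A p) +
      sg (x (Sum.inl p.1)) * ∑ s : Fin 8, sg (x (Sum.inr (p, s))) +
      en GS (fun s => x (Sum.inr (p, s))) := by
  classical
  unfold en
  rw [sum_VA m A p]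
  simp only [sum_VA m A p (fun k => if (compE E A).Adj _ k then sg (x _) * sg (x k) else 0)]
  rw [Finset.sum_add_distrib, Finset.sum_add_distrib]
  have h1 : ∀ v w : VA m (A.erase p.1), (compE E A).Adj (io m A p v) (io m A p w) ↔
      (compE E (A.erase p.1)).Adj v w := by
    rintro (u | ⟨q, s⟩) (w | ⟨r, t⟩)
    · exact Iff.rfl
    · exact Iff.rfl
    · exact Iff.rfl
    · change ((⟨q.1, Finset.mem_of_mem_erase q.2⟩ : {p : ZMod m // p ∈ A}) =
        ⟨r.1, Finset.mem_of_mem_erase r.2⟩ ∧ GS.Adj s t) ↔ q = r ∧ GS.Adj s t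
      rw [Subtype.mk.injEq, ← Subtype.ext_iff]
  have h2 : ∀ (v : VA m (A.erase p.1)) (s : Fin 8),
      (compE E A).Adj (io m A p v) (Sum.inr (p, s)) ↔ v = Sum.inl p.1 := by
    rintro (u | ⟨q, t⟩) s
    · change u = p.1 ↔ _
      rw [Sum.inl.injEq]
    · constructor
      · intro h
        exact absurd (congrArg Subtype.val h.1) (Finset.ne_of_mem_erase q.2)
      · intro h
        exact absurd h Sum.inr_ne_inl
  have h2' : ∀ (v : VA m (A.erase p.1)) (s : Fin 8),
      (compE E A).Adj (Sum.inr (p, s)) (io m A p v) ↔ v = Sum.inl p.1 := fun v s => by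
    rw [SimpleGraph.adj_comm]
    exact h2 v s
  have h3 : ∀ s t : Fin 8, (compE E A).Adj (Sum.inr (p, s)) (Sum.inr (p, t)) ↔ GS.Adj s t := by
    intro s t
    constructor
    · exact fun h => h.2
    · exact fun h => ⟨rfl, h⟩
  have e1 : ∑ v : VA m (A.erase p.1), ∑ w : VA m (A.erase p.1),
      (if (compE E A).Adj (io m A p v) (io m A p w) then
        sg (x (io m A p v)) * sg (x (io m A p w)) else 0) =
      ∑ v, ∑ w, (if (compE E (A.erase p.1)).Adj v w then
        sg ((x ∘ io m A p) v) * sg ((x ∘ io m A p) w) else 0) := by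
    refine Finset.sum_congr rfl fun v _ => Finset.sum_congr rfl fun w _ => ?_
    exact if_congr (h1 v w) rfl rfl
  have e2 : ∑ v : VA m (A.erase p.1), ∑ s : Fin 8,
      (if (compE E A).Adj (io m A p v) (Sum.inr (p, s)) then
        sg (x (io m A p v)) * sg (x (Sum.inr (p, s))) else 0) =
      sg (x (Sum.inl p.1)) * ∑ s : Fin 8, sg (x (Sum.inr (p, s))) := by
    rw [Finset.sum_comm, Finset.mul_sum]
    refine Finset.sum_congr rfl fun s _ => ?_
    rw [Finset.sum_congr rfl fun v _ => if_congr (h2 v s) rfl rfl, Finset.sum_ite_eq',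
      if_pos (Finset.mem_univ _)]
    rfl
  have e3 : ∑ s : Fin 8, ∑ v : VA m (A.erase p.1),
      (if (compE E A).Adj (Sum.inr (p, s)) (io m A p v) then
        sg (x (Sum.inr (p, s))) * sg (x (io m A p v)) else 0) =
      sg (x (Sum.inl p.1)) * ∑ s : Fin 8, sg (x (Sum.inr (p, s))) := by
    rw [Finset.mul_sum]
    refine Finset.sum_congr rfl fun s _ => ?_
    rw [Finset.sum_congr rfl fun v _ => if_congr (h2' v s) rfl rfl, Finset.sum_ite_eq',
      if_pos (Finset.mem_univ _), mul_comm]
    rfl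
  have e4 : ∑ s : Fin 8, ∑ t : Fin 8,
      (if (compE E A).Adj (Sum.inr (p, s)) (Sum.inr (p, t)) then
        sg (x (Sum.inr (p, s))) * sg (x (Sum.inr (p, t))) else 0) =
      ∑ s : Fin 8, ∑ t : Fin 8, (if GS.Adj s t then
        sg (x (Sum.inr (p, s))) * sg (x (Sum.inr (p, t))) else 0) := by
    refine Finset.sum_congr rfl fun s _ => Finset.sum_congr rfl fun t _ => ?_
    exact if_congr (h3 s t) rfl rfl
  rw [e1, e2, e3, e4]
  ring

theorem hidE_HP : HP (compE E A) * hid m A p = hid m A p * HP (compE E (A.erase p.1)) := by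
  rw [HP_eq, HP_eq]
  ext x y
  rw [Matrix.diagonal_mul, Matrix.mul_diagonal, hid_apply]
  split_ifs with h
  · rw [h, en_eq m E A p x]
    set w : Fin 8 → Bool := fun s => x (Sum.inr (p, s)) with hw
    have h1 : (∑ s : Fin 8, sg (w s)) * psi w = 0 := by
      have := congrFun Jz_psi w
      rw [Matrix.mulVec, dotProduct, Pi.zero_apply] at this
      rw [← this]
      rw [Finset.sum_eq_single w]
      · congr 1
        rw [Matrix.sum_apply]
        refine Finset.sum_congr rfl fun s _ => ?_
        rw [pz, Matrix.diagonal_apply_eq]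
      · intro b _ hb
        rw [Matrix.sum_apply, Finset.sum_eq_zero, zero_mul]
        intro s _
        rw [pz, Matrix.diagonal_apply_ne _ (Ne.symm hb)]
      · exact fun h => absurd (Finset.mem_univ _) h
    have h2 : en GS w * psi w = 0 := by
      have := congrFun HP_psi w
      rw [HP_eq, Matrix.mulVec_diagonal, Pi.zero_apply] at this
      exact this
    linear_combination sg (x (Sum.inl p.1)) * h1 + h2
  · rw [mul_zero, zero_mul]

/-- every element of the algebra without the gadget `p` is the restriction of an element of the algebra with it -/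
theorem hidE_lift (z' : Op (VA m (A.erase p.1))) (hz : z' ∈ genC (HP (compE E (A.erase p.1))) (HM (VA m (A.erase p.1)))) :
    ∃ z ∈ genC (HP (compE E A)) (HM (VA m A)), z * hid m A p = hid m A p * z' := by
  have hcl : HP (compE E A) ∈ genC (HP (compE E A)) (HM (VA m A)) ∧
      HM (VA m A) ∈ genC (HP (compE E A)) (HM (VA m A)) ∧
      ∀ M ∈ genC (HP (compE E A)) (HM (VA m A)), ∀ N ∈ genC (HP (compE E A)) (HM (VA m A)),
        M * N - N * M ∈ genC (HP (compE E A)) (HM (VA m A)) := by
    unfold genC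
    refine ⟨?_, ?_, ?_⟩
    · rw [Submodule.mem_sInf]
      exact fun S hS => hS.1
    · rw [Submodule.mem_sInf]
      exact fun S hS => hS.2.1
    · intro M hM N hN
      rw [Submodule.mem_sInf] at *
      exact fun S hS => hS.2.2 _ (hM S hS) _ (hN S hS)
  let T : Submodule ℂ (Op (VA m (A.erase p.1))) :=
    { carrier := {w | ∃ z ∈ genC (HP (compE E A)) (HM (VA m A)), z * hid m A p = hid m A p * w}
      add_mem' := by
        rintro w w' ⟨z, hz, h⟩ ⟨z', hz', h'⟩
        refine ⟨z + z', Submodule.add_mem _ hz hz', ?_⟩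
        rw [Matrix.add_mul, Matrix.mul_add, h, h']
      zero_mem' := ⟨0, Submodule.zero_mem _, by rw [Matrix.zero_mul, Matrix.mul_zero]⟩
      smul_mem' := by
        rintro c w ⟨z, hz, h⟩
        refine ⟨c • z, Submodule.smul_mem _ _ hz, ?_⟩
        rw [Matrix.smul_mul, Matrix.mul_smul, h] }
  have hT : genC (HP (compE E (A.erase p.1))) (HM (VA m (A.erase p.1))) ≤ T := by
    refine sInf_le ⟨⟨_, hcl.1, hidE_HP m E A p⟩, ⟨_, hcl.2.1, hid_HM m A p⟩, ?_⟩
    rintro w ⟨z, hz, h⟩ w' ⟨z', hz', h'⟩
    refine ⟨z * z' - z' * z, hcl.2.2 _ hz _ hz', ?_⟩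
    rw [Matrix.sub_mul, Matrix.mul_sub, Matrix.mul_assoc, Matrix.mul_assoc, h, h',
      ← Matrix.mul_assoc, ← Matrix.mul_assoc, h, h', Matrix.mul_assoc, Matrix.mul_assoc]
  exact hT hz

end

end Pool.Agent.QAOA.CX
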