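import Pool.Agent.Lib_MP_debdb1_cz.Base
import Pool.Agent.Lib_MP_debdb1_mp.Pauli

/-!
# Piece LIN: the linear part of the frozen cost operator
-/

set_option autoImplicit false

namespace Pool.Agent.QAOA.CX

open Matrix Pool.Agent.QAOA

section
variable {W : Type*} [Fintype W] [DecidableEq W]

theorem lin_px_pz_self (w : W) : (px w * pz w : Op W) = - (pz w * px w) := by
  have h1 : (pz w : Op W) = Matrix.diagonal (fun x => sg (x w)) := rfl
  rw [h1, px_diag, ← neg_mul]
  congr 1
  rw [Matrix.diagonal_neg]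
  congr 1
  funext x
  simp [sg_flip]

theorem lin_px_pz_ne (a w : W) (h : a ≠ w) : (px a * pz w : Op W) = pz w * px a := by
  have h1 : (pz w : Op W) = Matrix.diagonal (fun x => sg (x w)) := rfl
  rw [h1, px_diag]
  congr 1
  congr 1
  funext x
  simp [sg_flip, h.symm]

theorem lin_ad_pz (w : W) : ad Finset.univ (pz w : Op W) = (2 : ℂ) • (px w * pz w) := by
  rw [ad_apply, Finset.sum_mul, Finset.mul_sum, ← Finset.sum_sub_distrib]
  rw [Finset.sum_eq_single w]
  · rw [lin_px_pz_self, two_smul]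
    abel
  · intro a _ ha
    rw [lin_px_pz_ne a w ha, sub_self]
  · intro h
    exact absurd (Finset.mem_univ w) h

theorem lin_ad2_pz (w : W) : ad Finset.univ (ad Finset.univ (pz w : Op W)) = (4 : ℂ) • (pz w : Op W) := by
  rw [lin_ad_pz, map_smul, ad_mul_of_comm, lin_ad_pz, Matrix.mul_smul, ← mul_assoc, px_sq, one_mul, smul_smul]
  · norm_num
  · rw [Finset.sum_mul, Finset.mul_sum]
    exact Finset.sum_congr rfl fun a _ => px_comm a w

theorem lin_qA_pz (w : W) : qA Finset.univ (pz w : Op W) = pz w := by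
  rw [qA, lin_ad2_pz, map_smul, map_smul, lin_ad2_pz, smul_smul, smul_smul, smul_smul, ← sub_smul]
  norm_num

theorem lin_qA_lin (M : Op W) : qA Finset.univ M = ((1 / 3 : ℂ) • (ad Finset.univ ∘ₗ ad Finset.univ) -
    (1 / 48 : ℂ) • (ad Finset.univ ∘ₗ ad Finset.univ ∘ₗ ad Finset.univ ∘ₗ ad Finset.univ) :
      Op W →ₗ[ℂ] Op W) M := rfl

theorem lin_qA_HP (G : SimpleGraph W) : qA Finset.univ (HP G) = 0 := by
  rw [HP_eq, qA_Hw _ _ (fun j => by simp)]
  simp [Hw]

open Classical in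
theorem lin_qA_sum (P : W → Prop) : qA Finset.univ (∑ w : W, if P w then (pz w : Op W) else 0) =
    ∑ w : W, if P w then (pz w : Op W) else 0 := by
  rw [lin_qA_lin, map_sum]
  refine Finset.sum_congr rfl fun w _ => ?_
  rw [← lin_qA_lin]
  split_ifs
  · exact lin_qA_pz w
  · rw [lin_qA_lin, map_zero]

end

open Classical in
theorem lin_mem {V : Type*} [Fintype V] [DecidableEq V] (G : SimpleGraph V) (v : V) :
    (∑ w : {w : V // w ≠ v}, if G.Adj v w then pz w else 0) ∈ genC (HPr G v) (HM {w : V // w ≠ v}) := by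
  set S := genC (HPr G v) (HM {w : V // w ≠ v}) with hS
  have hA : HPr G v ∈ S := by
    rw [hS, genC, Submodule.mem_sInf]
    exact fun T hT => hT.1
  have hB : HM {w : V // w ≠ v} ∈ S := by
    rw [hS, genC, Submodule.mem_sInf]
    exact fun T hT => hT.2.1
  have hc : ∀ M ∈ S, HM {w : V // w ≠ v} * M - M * HM {w : V // w ≠ v} ∈ S := by
    intro M hM
    rw [hS, genC, Submodule.mem_sInf] at hM hB ⊢
    exact fun T hT => hT.2.2 _ (hB T hT) M (hM T hT)
  have h2 := hc _ (hc _ hA)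
  have h4 := hc _ (hc _ h2)
  have h5 := S.sub_mem (S.smul_mem (1 / 3 : ℂ) h2) (S.smul_mem (1 / 48 : ℂ) h4)
  have h6 : qA Finset.univ (HPr G v) ∈ S := h5
  unfold HPr at h6
  rw [lin_qA_lin, map_add, ← lin_qA_lin, ← lin_qA_lin, lin_qA_HP, zero_add,
    lin_qA_sum (fun w : {w : V // w ≠ v} => G.Adj v w)] at h6
  exact h6

end Pool.Agent.QAOA.CX
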