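import Pool.Agent.Lib_MP_debdb1_cx.LbApp
import Pool.Agent.Lib_MP_debdb1_cz.Base

/-!
# Piece LOW: `lower1` for an arbitrary core graph which contains the square of the cycle
-/

set_option autoImplicit false

namespace Pool.Agent.QAOA.CX

open Matrix Pool.Agent.QAOA

section core
variable {m : ℕ} [NeZero m]

omit [NeZero m] in
theorem lq_adj1 {E : SimpleGraph (ZMod m)} (hE1 : ∀ u, E.Adj u (u + 1)) (x y : ZMod m) (h : y = x + 1) : E.Adj x y := by
  rw [h]
  exact hE1 x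

omit [NeZero m] in
theorem lq_adj2 {E : SimpleGraph (ZMod m)} (hE2 : ∀ u, E.Adj u (u + 2)) (x y : ZMod m) (h : y = x + 2) : E.Adj x y := by
  rw [h]
  exact hE2 x

variable {E : SimpleGraph (ZMod m)} {A : Finset (ZMod m)} {v : VA m A} {K : Submodule ℂ (Op {w : VA m A // w ≠ v})}

theorem lq_run (hE1 : ∀ u, E.Adj u (u + 1)) (hE2 : ∀ u, E.Adj u (u + 2)) (hK : IdH (compE E A) v (fun w => ∃ u : ZMod m, w.1 = Sum.inl u) K) (b0 : ZMod m) (L : ℕ)
    (hL : 2 ≤ L) (hb : ∀ i : ℕ, i ≤ L → (Sum.inl (b0 + (i : ZMod m)) : VA m A) ≠ v)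
    (hz : pz (⟨Sum.inl (b0 + ((0 : ℕ) : ZMod m)), hb 0 (Nat.zero_le _)⟩ : {w : VA m A // w ≠ v}) ∈ K) :
    ∀ (i : ℕ) (hi : i ≤ L), pz (⟨Sum.inl (b0 + (i : ZMod m)), hb i hi⟩ : {w : VA m A // w ≠ v}) ∈ K := by
  intro i
  induction i using Nat.strong_induction_on with
  | _ i ih =>
    intro hi
    match i, ih, hi with
    | 0, _, _ => exact hz
    | 1, _, _ =>
      refine g4 hK ⟨Sum.inl (b0 + ((0 : ℕ) : ZMod m)), hb 0 (Nat.zero_le _)⟩ _
        ⟨Sum.inl (b0 + ((2 : ℕ) : ZMod m)), hb 2 hL⟩ ⟨_, rfl⟩ ⟨_, rfl⟩ ⟨_, rfl⟩ ?_ ?_ ?_ hz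
      · exact lq_adj1 hE1 _ _ (by push_cast; ring)
      · exact lq_adj2 hE2 _ _ (by push_cast; ring)
      · exact lq_adj1 hE1 _ _ (by push_cast; ring)
    | k + 2, ih, hi =>
      refine g4 hK ⟨Sum.inl (b0 + ((k : ℕ) : ZMod m)), hb k (by omega)⟩ _
        ⟨Sum.inl (b0 + ((k + 1 : ℕ) : ZMod m)), hb (k + 1) (by omega)⟩ ⟨_, rfl⟩ ⟨_, rfl⟩ ⟨_, rfl⟩ ?_ ?_ ?_
        (ih k (by omega) (by omega))
      · exact lq_adj2 hE2 _ _ (by push_cast; ring)
      · exact lq_adj1 hE1 _ _ (by push_cast; ring)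
      · exact (lq_adj1 hE1 _ _ (by push_cast; ring)).symm

theorem lq_Z (hm : 24 ≤ m) (hE1 : ∀ u, E.Adj u (u + 1)) (hE2 : ∀ u, E.Adj u (u + 2)) (hK : IdH (compE E A) v (fun w => ∃ u : ZMod m, w.1 = Sum.inl u) K) (u : ZMod m)
    (hu : (Sum.inl u : VA m A) ≠ v) : pz (⟨Sum.inl u, hu⟩ : {w : VA m A // w ≠ v}) ∈ K := by
  cases v with
  | inl j =>
    have hne : ∀ i : ℕ, i ≤ m - 2 → (Sum.inl ((j + 1) + (i : ZMod m)) : VA m A) ≠ Sum.inl j := by
      intro i hi h
      have h1 := Sum.inl.inj h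
      have h2 : (((i + 1 : ℕ)) : ZMod m) = 0 := by
        have h3 : j + (((i + 1 : ℕ)) : ZMod m) = j + 0 := by
          rw [add_zero]
          push_cast
          linear_combination h1
        exact add_left_cancel h3
      exact la_ne (i + 1) (by omega) (by omega) h2
    have hz := g1 hK (⟨Sum.inl ((j + 1) + ((0 : ℕ) : ZMod m)), hne 0 (by omega)⟩) ⟨_, rfl⟩
      (show E.Adj j ((j + 1) + ((0 : ℕ) : ZMod m)) from lq_adj1 hE1 _ _ (by push_cast; ring))
    have hall := lq_run hE1 hE2 hK (j + 1) (m - 2) (by omega) hne hz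
    have hlt := ZMod.val_lt (u - (j + 1))
    have hcast : (j + 1) + (((u - (j + 1)).val : ℕ) : ZMod m) = u := by
      rw [ZMod.natCast_zmod_val]; ring
    have hle : (u - (j + 1)).val ≤ m - 2 := by
      by_contra hcon
      have h1 : (u - (j + 1)).val = m - 1 := by omega
      rw [h1] at hcast
      apply hu
      congr 1
      rw [← hcast]
      have h2 : ((m - 1 : ℕ) : ZMod m) = -1 := by
        rw [Nat.cast_sub (by omega)]
        simp
      rw [h2]
      ring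
    have := hall _ hle
    convert this using 3
    exact congrArg Sum.inl hcast.symm
  | inr q =>
    have hne : ∀ i : ℕ, i ≤ m - 1 → (Sum.inl (q.1.1 + (i : ZMod m)) : VA m A) ≠ Sum.inr q := by
      intro i _ h
      exact Sum.inl_ne_inr h
    have hz := g1 hK (⟨Sum.inl (q.1.1 + ((0 : ℕ) : ZMod m)), hne 0 (by omega)⟩) ⟨_, rfl⟩
      (show q.1.1 + ((0 : ℕ) : ZMod m) = q.1.1 by push_cast; ring)
    have hall := lq_run hE1 hE2 hK q.1.1 (m - 1) (by omega) hne hz
    have hlt := ZMod.val_lt (u - q.1.1)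
    have hcast : q.1.1 + (((u - q.1.1).val : ℕ) : ZMod m) = u := by
      rw [ZMod.natCast_zmod_val]; ring
    have := hall (u - q.1.1).val (by omega)
    convert this using 3
    exact congrArg Sum.inl hcast.symm

omit [NeZero m] in
/-- the vertices 0, 1, 2 are pairwise adjacent -/
theorem lq_012 (hE1 : ∀ u, E.Adj u (u + 1)) (hE2 : ∀ u, E.Adj u (u + 2)) (i j : ℕ) (hi : i < 3) (hj : j < 3) (hij : i ≠ j) : E.Adj (i : ZMod m) (j : ZMod m) := by
  have key : ∀ i j : ℕ, i < j → j < 3 → E.Adj (i : ZMod m) (j : ZMod m) := by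
    intro i j h1 h2
    have : j = i + 1 ∨ j = i + 2 := by omega
    rcases this with h | h
    · exact lq_adj1 hE1 _ _ (by rw [h]; push_cast; ring)
    · exact lq_adj2 hE2 _ _ (by rw [h]; push_cast; ring)
  rcases Nat.lt_or_gt_of_ne hij with h | h
  · exact key i j h hj
  · exact (key j i h hi).symm

theorem lq_core (hm : 24 ≤ m) (hE1 : ∀ u, E.Adj u (u + 1)) (hE2 : ∀ u, E.Adj u (u + 2)) (hK : IdH (compE E A) v (fun w => ∃ u : ZMod m, w.1 = Sum.inl u) K) (a b : ℕ) (ha3 : a < 3)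
    (_hb3 : b < 3) (ha : (Sum.inl (a : ZMod m) : VA m A) ≠ v) (hb : (Sum.inl (b : ZMod m) : VA m A) ≠ v)
    (pr : Pr (compE E A) v (fun w => ∃ u : ZMod m, w.1 = Sum.inl u) K ⟨Sum.inl (a : ZMod m), ha⟩ ⟨Sum.inl (b : ZMod m), hb⟩) :
    ∀ (i : ℕ), i < m → ∀ hu : (Sum.inl (i : ZMod m) : VA m A) ≠ v, (i : ZMod m) ≠ (a : ZMod m) → (i : ZMod m) ≠ (b : ZMod m) →
      pz (⟨Sum.inl (i : ZMod m), hu⟩ : {w : VA m A // w ≠ v}) ∈ QQ K ⟨Sum.inl (a : ZMod m), ha⟩ ⟨Sum.inl (b : ZMod m), hb⟩ ∧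
      px (⟨Sum.inl (i : ZMod m), hu⟩ : {w : VA m A // w ≠ v}) ∈ QQ K ⟨Sum.inl (a : ZMod m), ha⟩ ⟨Sum.inl (b : ZMod m), hb⟩ := by
  intro i
  induction i using Nat.strong_induction_on with
  | _ i ih =>
    intro him hu hia hib
    have hca : (⟨Sum.inl (i : ZMod m), hu⟩ : {w : VA m A // w ≠ v}) ≠ ⟨Sum.inl (a : ZMod m), ha⟩ := by
      intro h
      exact hia (Sum.inl.inj (congrArg Subtype.val h))
    have hcb : (⟨Sum.inl (i : ZMod m), hu⟩ : {w : VA m A // w ≠ v}) ≠ ⟨Sum.inl (b : ZMod m), hb⟩ := by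
      intro h
      exact hib (Sum.inl.inj (congrArg Subtype.val h))
    have first : ∀ h : E.Adj (a : ZMod m) (i : ZMod m) ∨ E.Adj (b : ZMod m) (i : ZMod m), _ :=
      fun h => q_first hK pr ⟨Sum.inl (i : ZMod m), hu⟩ ⟨_, rfl⟩ hca hcb (lq_Z hm hE1 hE2 hK _ hu) h
    by_cases h3 : i < 3
    · refine first (Or.inl (lq_012 hE1 hE2 a i ha3 h3 ?_))
      intro h
      exact hia (by rw [h])
    · have step : ∀ w : ℕ, w < i → (w + 1 = i ∨ w + 2 = i) → (Sum.inl (w : ZMod m) : VA m A) ≠ v →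
          pz (⟨Sum.inl (i : ZMod m), hu⟩ : {w : VA m A // w ≠ v}) ∈ QQ K ⟨Sum.inl (a : ZMod m), ha⟩ ⟨Sum.inl (b : ZMod m), hb⟩ ∧
          px (⟨Sum.inl (i : ZMod m), hu⟩ : {w : VA m A // w ≠ v}) ∈ QQ K ⟨Sum.inl (a : ZMod m), ha⟩ ⟨Sum.inl (b : ZMod m), hb⟩ := by
        intro w hwi hw hwv
        have hadj : E.Adj (w : ZMod m) (i : ZMod m) := by
          rcases hw with h | h
          · exact lq_adj1 hE1 _ _ (by rw [← h]; push_cast; ring)
          · exact lq_adj2 hE2 _ _ (by rw [← h]; push_cast; ring)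
        by_cases hwa : (w : ZMod m) = (a : ZMod m)
        · exact first (Or.inl (by rw [← hwa]; exact hadj))
        · by_cases hwb : (w : ZMod m) = (b : ZMod m)
          · exact first (Or.inr (by rw [← hwb]; exact hadj))
          · obtain ⟨h1, h2⟩ := ih w hwi (by omega) hwv hwa hwb
            exact q_next hK pr ⟨Sum.inl (w : ZMod m), hwv⟩ ⟨Sum.inl (i : ZMod m), hu⟩ ⟨_, rfl⟩ ⟨_, rfl⟩ hca hcb
              (lq_Z hm hE1 hE2 hK _ hwv) hadj h1 h2
      by_cases hv1 : (Sum.inl ((i - 1 : ℕ) : ZMod m) : VA m A) ≠ v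
      · exact step (i - 1) (by omega) (by omega) hv1
      · refine step (i - 2) (by omega) (by omega) ?_
        intro hv2
        push Not at hv1
        rw [← hv1] at hv2
        have h5 := Sum.inl.inj hv2
        have h6 : ((i - 1 : ℕ) : ZMod m) = ((i - 2 : ℕ) : ZMod m) + 1 := by
          have : i - 1 = (i - 2) + 1 := by omega
          rw [this]
          push_cast
          ring
        exact (lq_adj1 hE1 ((i - 2 : ℕ) : ZMod m) ((i - 1 : ℕ) : ZMod m) h6).ne h5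

end core

section gadget
variable {m : ℕ} [NeZero m] {E : SimpleGraph (ZMod m)} {A : Finset (ZMod m)} {v : VA m A}
  {K : Submodule ℂ (Op {w : VA m A // w ≠ v})}

/-- the gadget algebras are coefficients -/
theorem lq_gad (hK : IdH (compE E A) v (fun w => ∃ u : ZMod m, w.1 = Sum.inl u) K) {a b : {w : VA m A // w ≠ v}}
    (pr : Pr (compE E A) v (fun w => ∃ u : ZMod m, w.1 = Sum.inl u) K a b)
    (p : {p : ZMod m // p ∈ A}) (hp : p.1 ≠ posn v) (c : {w : VA m A // w ≠ v}) (hc : c.1 = Sum.inl p.1)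
    (hca : c ≠ a) (hcb : c ≠ b) (hzc : pz c ∈ K) (h1 : pz c ∈ QQ K a b) (h2 : px c ∈ QQ K a b)
    (hnb : ∀ w : {w : VA m A // w ≠ v}, (compE E A).Adj a w → w ≠ b → pz w ∈ QQ K a b) (s : Op (Fin 8)) (hs : s ∈ SS) :
    emb (gadE v p hp) s ∈ QQ K a b := by
  classical
  set f := gadE v p hp with hf
  have hfv : ∀ t, (f t).1 = Sum.inr (p, t) := fun t => rfl
  have hcore : ∀ (w : {w : VA m A // w ≠ v}), (∃ u : ZMod m, w.1 = Sum.inl u) → ∀ t, f t ≠ w := by
    rintro w ⟨u, hw⟩ t ht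
    rw [← ht, hfv] at hw
    exact Sum.inr_ne_inl hw
  have hrange : ∀ (w : {w : VA m A // w ≠ v}) (t : Fin 8), w.1 = Sum.inr (p, t) → f t = w :=
    fun w t hw => Subtype.ext hw.symm
  have hJ : (∑ w : {w : VA m A // w ≠ v}, if (compE E A).Adj c w ∧ ¬ (∃ u : ZMod m, w.1 = Sum.inl u) then pz w else 0 :
      Op {w : VA m A // w ≠ v}) = emb f (∑ s : Fin 8, pz s) := by
    rw [emb_sum, ← Finset.sum_add_sum_compl (Finset.univ.map f), Finset.sum_map]
    have e0 : ∀ w ∈ (Finset.univ.map f)ᶜ, (if (compE E A).Adj c w ∧ ¬ (∃ u : ZMod m, w.1 = Sum.inl u) then pz w else 0 :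
        Op {w : VA m A // w ≠ v}) = 0 := by
      rintro ⟨w, hwv⟩ hw
      rw [if_neg]
      rintro ⟨h3, h4⟩
      rw [Finset.mem_compl, Finset.mem_map] at hw
      apply hw
      rw [hc] at h3
      cases w with
      | inl u => exact absurd ⟨u, rfl⟩ h4
      | inr q =>
        have h5 : p.1 = q.1.1 := h3
        obtain ⟨q1, q2⟩ := q
        have h6 : p = q1 := Subtype.ext h5
        subst h6
        exact ⟨q2, Finset.mem_univ _, rfl⟩
    rw [Finset.sum_eq_zero e0, add_zero]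
    refine Finset.sum_congr rfl fun t _ => ?_
    rw [emb_pz, if_pos]
    refine ⟨?_, ?_⟩
    · rw [hc]
      exact rfl
    · rintro ⟨u, hu⟩
      exact Sum.inr_ne_inl hu
  have hJB : emb f (∑ s : Fin 8, pz s) ∈ QQ K a b := by
    rw [← hJ]
    have h := q_unc hK pr c ⟨_, hc⟩ hca hcb hzc pr.ca pr.cb h1 h2
    convert h
  have hN : ∀ x : Op (Fin 8), emb f x * (∑ w : {w : VA m A // w ≠ v}, if (compE E A).Adj v w then pz w else 0) =
      (∑ w : {w : VA m A // w ≠ v}, if (compE E A).Adj v w then pz w else 0) * emb f x := by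
    intro x
    rw [Finset.mul_sum, Finset.sum_mul]
    refine Finset.sum_congr rfl fun w _ => ?_
    by_cases hvw : (compE E A).Adj v w
    · rw [if_pos hvw]
      refine la_cz f w ?_ x
      intro t ht
      rw [← ht, hfv] at hvw
      apply hp
      cases v with
      | inl j => exact (show j = p.1 from hvw).symm
      | inr q => exact (congrArg Subtype.val (show q.1 = p from hvw.1)).symm
    · rw [if_neg hvw, mul_zero, zero_mul]
  obtain ⟨R, hR, hHP⟩ := la_HP f ((compE E A).comap (Subtype.val : {w : VA m A // w ≠ v} → VA m A)) GS c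
    (hcore c ⟨_, hc⟩) (by
      intro s t
      exact ⟨fun h => h.2, fun h => ⟨rfl, h⟩⟩) (by
      rintro s ⟨w, hwv⟩ hw
      cases w with
      | inl u =>
        constructor
        · intro h
          apply Subtype.ext
          rw [hc]
          exact congrArg Sum.inl (show u = p.1 from h)
        · intro h
          have h3 := congrArg Subtype.val h
          rw [hc] at h3
          exact (show u = p.1 from Sum.inl.inj h3)
      | inr q =>
        constructor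
        · intro h
          obtain ⟨q1, q2⟩ := q
          have h6 : p = q1 := h.1
          subst h6
          exact absurd rfl (hw q2)
        · intro h
          have h3 := congrArg Subtype.val h
          rw [hc] at h3
          exact absurd h3 Sum.inr_ne_inl)
  have key : ∀ x : Op (Fin 8), HPr (compE E A) v * emb f x - emb f x * HPr (compE E A) v =
      emb f (HP GS * x - x * HP GS) + pz c * emb f ((∑ s : Fin 8, pz s) * x - x * (∑ s : Fin 8, pz s)) := by
    intro x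
    unfold HPr
    rw [hHP, la_emb_sub, la_emb_sub, emb_mul, emb_mul, emb_mul, emb_mul]
    exact la_comm _ _ _ _ _ _ (hN x) (hR x) (la_cz f c (hcore c ⟨_, hc⟩) x)
  have hS : SS ≤ (la_B hK pr).comap (la_hom f) := by
    refine sInf_le ⟨?_, ?_, ?_⟩
    · have hx : HM (Fin 8) * (∑ s : Fin 8, pz s) - (∑ s : Fin 8, pz s) * HM (Fin 8) ∈ (la_B hK pr).comap (la_hom f) := by
        show emb f _ ∈ QQ K a b
        rw [← la_HM]
        exact q_HM hK pr hJB
      have hJS : (∑ s : Fin 8, pz s) ∈ (la_B hK pr).comap (la_hom f) := hJB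
      have h3 := Subalgebra.sub_mem _ (Subalgebra.mul_mem _ hJS hx) (Subalgebra.mul_mem _ hx hJS)
      rw [la_jz] at h3
      have h4 := Subalgebra.smul_mem _ h3 (-1 / 4 : ℂ)
      rw [smul_smul] at h4
      norm_num at h4
      exact h4
    · exact hJB
    · intro x hx
      have hxB : emb f x ∈ QQ K a b := hx
      have hJS : (∑ s : Fin 8, pz s) ∈ (la_B hK pr).comap (la_hom f) := hJB
      have h3 : emb f ((∑ s : Fin 8, pz s) * x - x * (∑ s : Fin 8, pz s)) ∈ QQ K a b :=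
        Subalgebra.sub_mem _ (Subalgebra.mul_mem _ hJS hx) (Subalgebra.mul_mem _ hx hJS)
      have h5 : HPr (compE E A) v * emb f x - emb f x * HPr (compE E A) v ∈ QQ K a b := by
        obtain ⟨ua, hua⟩ := pr.ca
        obtain ⟨ub, hub⟩ := pr.cb
        refine q_HP hK pr hxB hnb ?_ ?_ ?_ ?_
        · rw [key, add_mul, mul_add, la_cx f a (hcore a ⟨ua, hua⟩), mul_assoc, la_cx f a (hcore a ⟨ua, hua⟩), ← mul_assoc,
            ← mul_assoc, la_xz_ne a c hca.symm]
        · rw [key, add_mul, mul_add, la_cz f a (hcore a ⟨ua, hua⟩), mul_assoc, la_cz f a (hcore a ⟨ua, hua⟩), ← mul_assoc,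
            ← mul_assoc, la_zz a c]
        · rw [key, add_mul, mul_add, la_cx f b (hcore b ⟨ub, hub⟩), mul_assoc, la_cx f b (hcore b ⟨ub, hub⟩), ← mul_assoc,
            ← mul_assoc, la_xz_ne b c hcb.symm]
        · rw [key, add_mul, mul_add, la_cz f b (hcore b ⟨ub, hub⟩), mul_assoc, la_cz f b (hcore b ⟨ub, hub⟩), ← mul_assoc,
            ← mul_assoc, la_zz b c]
      have h6 : emb f (HP GS * x - x * HP GS) = (HPr (compE E A) v * emb f x - emb f x * HPr (compE E A) v) -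
          pz c * emb f ((∑ s : Fin 8, pz s) * x - x * (∑ s : Fin 8, pz s)) := by
        rw [key, add_sub_cancel_right]
      show emb f (HP GS * x - x * HP GS) ∈ QQ K a b
      rw [h6]
      have h1B : pz c ∈ la_B hK pr := h1
      have h3B : emb f ((∑ s : Fin 8, pz s) * x - x * (∑ s : Fin 8, pz s)) ∈ la_B hK pr := h3
      have h5B : HPr (compE E A) v * emb f x - emb f x * HPr (compE E A) v ∈ la_B hK pr := h5
      exact Subalgebra.sub_mem _ h5B (Subalgebra.mul_mem _ h1B h3B)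
  exact hS hs

end gadget

theorem lower1E (m : ℕ) [NeZero m] (hm : 24 ≤ m) (E : SimpleGraph (ZMod m)) (hE1 : ∀ u, E.Adj u (u + 1))
    (hE2 : ∀ u, E.Adj u (u + 2)) (A : Finset (ZMod m)) (h0 : (0 : ZMod m) ∉ A) (h1 : (1 : ZMod m) ∉ A)
    (h2 : (2 : ZMod m) ∉ A) (v : VA m A) (K : Submodule ℂ (Op {w : VA m A // w ≠ v}))
    (hK : IdH (compE E A) v (fun w => ∃ u : ZMod m, w.1 = Sum.inl u) K) :
    ∃ (a b : ZMod m) (ha : (Sum.inl a : VA m A) ≠ v), a ≠ b ∧
      ∀ q ∈ Algebra.adjoin ℂ (coefGen v a b), pz (⟨Sum.inl a, ha⟩ : {w : VA m A // w ≠ v}) * q ∈ K := by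
  classical
  obtain ⟨a, b, ha3, hb3, hab, hav, hbv⟩ : ∃ a b : ℕ, a < 3 ∧ b < 3 ∧ a ≠ b ∧ (Sum.inl (a : ZMod m) : VA m A) ≠ v ∧
      (Sum.inl (b : ZMod m) : VA m A) ≠ v := by
    have hne : ∀ i j : ℕ, i < 3 → j < 3 → i ≠ j → (Sum.inl (i : ZMod m) : VA m A) ≠ Sum.inl (j : ZMod m) :=
      fun i j hi hj hij h => (lq_012 hE1 hE2 i j hi hj hij).ne (Sum.inl.inj h)
    by_cases c0 : v = Sum.inl ((0 : ℕ) : ZMod m)
    · exact ⟨1, 2, by omega, by omega, by omega, by rw [c0]; exact hne 1 0 (by omega) (by omega) (by omega),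
        by rw [c0]; exact hne 2 0 (by omega) (by omega) (by omega)⟩
    · by_cases c1' : v = Sum.inl ((1 : ℕ) : ZMod m)
      · exact ⟨0, 2, by omega, by omega, by omega, by rw [c1']; exact hne 0 1 (by omega) (by omega) (by omega),
          by rw [c1']; exact hne 2 1 (by omega) (by omega) (by omega)⟩
      · exact ⟨0, 1, by omega, by omega, by omega, fun h => c0 h.symm, fun h => c1' h.symm⟩
  have pr : Pr (compE E A) v (fun w => ∃ u : ZMod m, w.1 = Sum.inl u) K ⟨Sum.inl (a : ZMod m), hav⟩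
      ⟨Sum.inl (b : ZMod m), hbv⟩ :=
    ⟨⟨_, rfl⟩, ⟨_, rfl⟩, lq_012 hE1 hE2 a b ha3 hb3 hab, lq_Z hm hE1 hE2 hK _ hav, lq_Z hm hE1 hE2 hK _ hbv⟩
  have hcore : ∀ (u : ZMod m) (hu : (Sum.inl u : VA m A) ≠ v), u ≠ (a : ZMod m) → u ≠ (b : ZMod m) →
      pz (⟨Sum.inl u, hu⟩ : {w : VA m A // w ≠ v}) ∈ QQ K ⟨Sum.inl (a : ZMod m), hav⟩ ⟨Sum.inl (b : ZMod m), hbv⟩ ∧
      px (⟨Sum.inl u, hu⟩ : {w : VA m A // w ≠ v}) ∈ QQ K ⟨Sum.inl (a : ZMod m), hav⟩ ⟨Sum.inl (b : ZMod m), hbv⟩ := by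
    intro u hu hua hub
    have h := lq_core hm hE1 hE2 hK a b ha3 hb3 hav hbv pr u.val (ZMod.val_lt u)
    rw [ZMod.natCast_zmod_val u] at h
    exact h hu hua hub
  have hA3 : ∀ i : ℕ, i < 3 → (i : ZMod m) ∉ A := by
    intro i hi
    match i, hi with
    | 0, _ => rw [Nat.cast_zero]; exact h0
    | 1, _ => rw [Nat.cast_one]; exact h1
    | 2, _ => exact_mod_cast h2
  have hnb : ∀ w : {w : VA m A // w ≠ v}, (compE E A).Adj (Sum.inl (a : ZMod m)) w → w ≠ ⟨Sum.inl (b : ZMod m), hbv⟩ →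
      pz w ∈ QQ K ⟨Sum.inl (a : ZMod m), hav⟩ ⟨Sum.inl (b : ZMod m), hbv⟩ := by
    rintro ⟨w, hwv⟩ hw hwb
    cases w with
    | inl u =>
      refine (hcore u hwv ?_ ?_).1
      · intro h
        exact (show E.Adj (a : ZMod m) u from hw).ne h.symm
      · intro h
        apply hwb
        subst h
        rfl
    | inr q =>
      have h : (a : ZMod m) = q.1.1 := hw
      exact absurd (h ▸ q.1.2) (hA3 a ha3)
  refine ⟨(a : ZMod m), (b : ZMod m), hav, fun h => (lq_012 hE1 hE2 a b ha3 hb3 hab).ne h, fun q hq => ?_⟩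
  have hle : Algebra.adjoin ℂ (coefGen v (a : ZMod m) (b : ZMod m)) ≤ la_B hK pr := by
    refine Algebra.adjoin_le ?_
    rintro q (⟨u, hu, hua, hub, rfl | rfl⟩ | ⟨p, hp, s, hs, rfl⟩)
    · exact (hcore u hu hua hub).2
    · exact (hcore u hu hua hub).1
    · have hpv : (Sum.inl p.1 : VA m A) ≠ v := by
        intro h
        apply hp
        rw [← h]
        rfl
      have hpa : p.1 ≠ (a : ZMod m) := fun h => hA3 a ha3 (h ▸ p.2)
      have hpb : p.1 ≠ (b : ZMod m) := fun h => hA3 b hb3 (h ▸ p.2)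
      exact lq_gad hK pr p hp ⟨Sum.inl p.1, hpv⟩ rfl (fun h => hpa (Sum.inl.inj (congrArg Subtype.val h)))
        (fun h => hpb (Sum.inl.inj (congrArg Subtype.val h))) (lq_Z hm hE1 hE2 hK _ hpv) (hcore p.1 hpv hpa hpb).1
        (hcore p.1 hpv hpa hpb).2 hnb s hs
  exact (hle hq).2.2.2.2


end Pool.Agent.QAOA.CX
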