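import Pool.Agent.Lib_MP_debdb1_cx.Root

/-!
# Piece ROOT2: the rooted partition (the root is alone in its class)

The helper lemmas `root_*` are those of the file `Root.lean` of the folder `Lib_MP_debdb1_cx`.
-/

set_option autoImplicit false

namespace Pool.Agent.QAOA.CX

open Matrix Pool.Agent.QAOA

open Classical in
theorem exists_equi_root {V : Type*} [Fintype V] [DecidableEq V] (G : SimpleGraph V) (v : V) :
    ∃ c : V → V, Equi G c ∧ (∀ x, c x = c v → x = v) ∧
      ∀ t, (Complex.I • ∑ x : {x : V // x ≠ v}, if c x.1 = t then px x else 0) ∈ gRed G v := by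
  set S := gRed G v with hSdef
  have hS : ∀ M ∈ S, ∀ N ∈ S, M * N - N * M ∈ S := fun M hM N hN => gen_comm _ _ M N hM hN
  set K : SimpleGraph {x : V // x ≠ v} := G.comap (Subtype.val : {x : V // x ≠ v} → V) with hKdef
  have hHM : RIn S Finset.univ := gen_right _ _
  have hHPr : Complex.I • HPr G v ∈ S := gen_left _ _
  -- the linear part
  have hN : Complex.I • (∑ w : {x : V // x ≠ v}, if G.Adj v w then pz w else 0 :
      Op {x : V // x ≠ v}) ∈ S := by
    have h1 := qA_mem S hS Finset.univ hHM _ hHPr
    have h2 : qA Finset.univ (HPr G v) =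
        (∑ w : {x : V // x ≠ v}, if G.Adj v w then pz w else 0 : Op {x : V // x ≠ v}) := by
      rw [HPr, root_qA_add, root_qA_sum, HP_eq, root_qA_univ_Hw _ (by intro j; simp), zero_add]
      refine Finset.sum_congr rfl fun w _ => ?_
      split_ifs
      · exact root_qA_z _ _ (Finset.mem_univ _)
      · have := root_qA_add (Finset.univ : Finset {x : V // x ≠ v}) 0 0
        simpa using this
    rwa [h2] at h1
  have hK : Complex.I • HP K ∈ S := by
    have h1 := S.sub_mem hHPr hN
    rw [← smul_sub, HPr, add_sub_cancel_right] at h1
    exact h1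
  obtain ⟨c', hg, hfin⟩ := root_exists_finest (RIn S)
    (by unfold RIn; rw [Finset.sum_empty, smul_zero]; exact Submodule.zero_mem _) hHM
    (by
      intro A B hA hB h
      unfold RIn at *
      have h1 := S.sub_mem hA hB
      convert h1 using 1
      rw [← smul_sub, ← Finset.sum_sdiff h]
      simp)
  have heq := root_equi_finest K (RIn S) (fun A hA => root_deg S hS K hK A hA)
    (fun A B hA hB h => root_nbr S hS K hK A B hA hB h) c' hg hfin
  -- neighbours of `v`
  have hadj : ∀ u w : {x : V // x ≠ v}, c' u = c' w → (G.Adj v u ↔ G.Adj v w) := by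
    have key : ∀ u w : {x : V // x ≠ v}, c' u = c' w → G.Adj v u → G.Adj v w := by
      intro u w huw hu
      have h1 := root_lin S hS (fun w : {x : V // x ≠ v} => G.Adj v w) hN _ (hg (c' u))
      rcases hfin (c' u) _ (Finset.filter_subset _ _) h1 with h2 | h2
      · have : u ∈ (Finset.univ.filter (fun x => c' x = c' u)).filter
            (fun w : {x : V // x ≠ v} => G.Adj v w) :=
          Finset.mem_filter.2 ⟨Finset.mem_filter.2 ⟨Finset.mem_univ _, rfl⟩, hu⟩
        rw [h2] at this
        exact absurd this (Finset.notMem_empty _)
      · have : w ∈ Finset.univ.filter (fun x => c' x = c' u) :=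
          Finset.mem_filter.2 ⟨Finset.mem_univ _, huw.symm⟩
        rw [← h2] at this
        exact (Finset.mem_filter.1 this).2
    exact fun u w h => ⟨key u w h, key w u h.symm⟩
  let c : V → V := fun x => if h : x = v then v else (c' ⟨x, h⟩).1
  have hcv : c v = v := dif_pos rfl
  have hcx : ∀ x : {x : V // x ≠ v}, c x.1 = (c' x).1 := fun x => dif_neg x.2
  have hcne : ∀ x : {x : V // x ≠ v}, c x.1 ≠ v := fun x => by rw [hcx]; exact (c' x).2
  refine ⟨c, ?_, fun x hx => by_contra fun h => hcne ⟨x, h⟩ (hx.trans hcv), ?_⟩
  · have hmain : ∀ u w : {x : V // x ≠ v}, c' u = c' w → ∀ t,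
        (Finset.univ.filter (fun x => G.Adj u x ∧ c x = t)).card % 2 =
          (Finset.univ.filter (fun x => G.Adj w x ∧ c x = t)).card % 2 := by
      intro u w huw t
      by_cases ht : t = v
      · have h1 : ∀ a : {x : V // x ≠ v}, Finset.univ.filter (fun x => G.Adj a x ∧ c x = t) =
            if G.Adj v a then {v} else ∅ := by
          intro a
          ext x
          simp only [Finset.mem_filter, Finset.mem_univ, true_and]
          constructor
          · rintro ⟨h2, h3⟩
            have hxv : x = v := by
              by_contra hx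
              exact hcne ⟨x, hx⟩ (h3.trans ht)
            subst hxv
            rw [if_pos h2.symm]
            exact Finset.mem_singleton_self _
          · intro hx
            split_ifs at hx with h2
            · rw [Finset.mem_singleton] at hx
              subst hx
              exact ⟨h2.symm, hcv.trans ht.symm⟩
            · exact absurd hx (Finset.notMem_empty _)
        rw [h1 u, h1 w]
        simp only [hadj u w huw]
      · have h1 : ∀ a : {x : V // x ≠ v}, (Finset.univ.filter (fun x => G.Adj a x ∧ c x = t)).card =
            (Finset.univ.filter (fun x => K.Adj a x ∧ c' x = ⟨t, ht⟩)).card := by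
          intro a
          rw [← Finset.card_map (Function.Embedding.subtype (fun x : V => x ≠ v))]
          congr 1
          ext x
          simp only [Finset.mem_filter, Finset.mem_univ, true_and, Finset.mem_map,
            Function.Embedding.coe_subtype]
          constructor
          · rintro ⟨h2, h3⟩
            have hx : x ≠ v := by
              rintro rfl
              exact ht (h3.symm.trans hcv)
            refine ⟨⟨x, hx⟩, ⟨h2, ?_⟩, rfl⟩
            apply Subtype.ext
            rw [← hcx]
            exact h3
          · rintro ⟨y, ⟨h2, h3⟩, rfl⟩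
            refine ⟨h2, ?_⟩
            rw [hcx, h3]
        rw [h1 u, h1 w]
        exact heq u w huw ⟨t, ht⟩
    intro u w huw t
    by_cases hu : u = v
    · have hw : w = v := by
        by_contra hw
        apply hcne ⟨w, hw⟩
        change c w = v
        rw [← huw, hu, hcv]
      rw [hu, hw]
    · have hw : w ≠ v := by
        intro hw
        apply hcne ⟨u, hu⟩
        change c u = v
        rw [huw, hw, hcv]
      have h1 : c' ⟨u, hu⟩ = c' ⟨w, hw⟩ := by
        apply Subtype.ext
        rw [← hcx, ← hcx]
        exact huw
      refine Eq.trans ?_ ((hmain ⟨u, hu⟩ ⟨w, hw⟩ h1 t).trans ?_) <;> congr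
  · intro t
    by_cases ht : t = v
    · have : (∑ x : {x : V // x ≠ v}, if c x.1 = t then px x else 0 : Op {x : V // x ≠ v}) = 0 := by
        refine Finset.sum_eq_zero fun x _ => if_neg fun h => hcne x (h.trans ht)
      rw [this, smul_zero]
      exact Submodule.zero_mem _
    · have h1 := hg ⟨t, ht⟩
      unfold RIn at h1
      rw [Finset.sum_filter] at h1
      convert h1 using 2
      refine Finset.sum_congr rfl fun x _ => ?_
      have : c x.1 = t ↔ c' x = ⟨t, ht⟩ := by
        rw [hcx]
        exact ⟨fun h => Subtype.ext h, fun h => by rw [h]⟩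
      by_cases h2 : c x.1 = t
      · rw [if_pos h2, if_pos (this.1 h2)]
      · rw [if_neg h2, if_neg (mt this.2 h2)]

end Pool.Agent.QAOA.CX
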