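import Pool.Agent.Lib_MP_debdb1_cz.Res

/-!
# Piece ROOTED: every core vertex is determined by the refinement rooted at any vertex
-/

set_option autoImplicit false

namespace Pool.Agent.QAOA.CX

open Matrix Pool.Agent.QAOA

theorem rooted_adj_iff (L : ℕ) (u w : ZMod (8 * L)) : w = u + 1 ↔ res L w = res L u + 1 ∧ (ringG L).Adj w u := by
  constructor
  · rintro rfl
    have h1 : res L (u + 1) = res L u + 1 := by rw [map_add, map_one]
    refine ⟨h1, ?_, Or.inr (Or.inl rfl)⟩
    intro h
    rw [h] at h1
    revert h1
    generalize res L u = a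
    revert a
    decide
  · rintro ⟨h0, -, h | h | h | h | h | h | h | h⟩
    · have h1 := congrArg (res L) h
      rw [map_add, map_one] at h1
      revert h0 h1
      generalize res L u = a
      generalize res L w = b
      intro h0 h1
      subst h0
      exfalso
      revert h1
      revert a
      decide
    · exact h
    · have h1 := congrArg (res L) h
      rw [map_add, map_ofNat] at h1
      revert h0 h1
      generalize res L u = a
      generalize res L w = b
      intro h0 h1
      subst h0
      exfalso
      revert h1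
      revert a
      decide
    · have h1 := congrArg (res L) h
      rw [map_add, map_ofNat] at h1
      revert h0 h1
      generalize res L u = a
      generalize res L w = b
      intro h0 h1
      subst h0
      exfalso
      revert h1
      revert a
      decide
    · have h1 := congrArg (res L) h.2
      rw [map_add, map_ofNat] at h1
      revert h0 h1
      generalize res L u = a
      generalize res L w = b
      intro h0 h1
      subst h0
      exfalso
      revert h1
      revert a
      decide
    · have h1 := congrArg (res L) h.2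
      rw [map_add, map_ofNat] at h1
      revert h0 h1
      generalize res L u = a
      generalize res L w = b
      intro h0 h1
      subst h0
      exfalso
      revert h1
      revert a
      decide
    · have h1 := congrArg (res L) h.2
      rw [map_add, map_ofNat] at h1
      revert h0 h1
      generalize res L u = a
      generalize res L w = b
      intro h0 h1
      subst h0
      exfalso
      revert h1
      revert a
      decide
    · have h1 := congrArg (res L) h.2
      rw [map_add, map_ofNat] at h1
      revert h0 h1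
      generalize res L u = a
      generalize res L w = b
      intro h0 h1
      subst h0
      exfalso
      revert h1
      revert a
      decide

section
variable (L : ℕ) [NeZero L] (hL : 3 ≤ L) (A : Finset (ZMod (8 * L))) (hA : ∀ p ∈ A, res L p = 7)

open Classical in
theorem rooted_sum {V : Type*} [Fintype V] [DecidableEq V] (G : SimpleGraph V) (v x : V) :
    (∑ y, if G.Adj x y then (if y = v then (1 : ZMod 2) else 0) else 0) = if G.Adj x v then 1 else 0 := by
  rw [Finset.sum_eq_single v]
  · rw [if_pos rfl]
  · intro y _ hy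
    rw [if_neg hy, ite_self]
  · intro h
    exact absurd (Finset.mem_univ _) h

include hL hA in
open Classical in
theorem rooted_step (D : Set (VA (8 * L) A → ZMod 2)) (h1 : (fun _ => 1) ∈ D) (hadd : ∀ f ∈ D, ∀ g ∈ D, f + g ∈ D)
    (hmul : ∀ f ∈ D, ∀ g ∈ D, f * g ∈ D)
    (hadj : ∀ f ∈ D, (fun x => ∑ y, if (compE (ringG L) A).Adj x y then f y else 0) ∈ D) (u : ZMod (8 * L))
    (hu : (fun x : VA (8 * L) A => if x = Sum.inl u then (1 : ZMod 2) else 0) ∈ D) :
    (fun x : VA (8 * L) A => if x = Sum.inl (u + 1) then (1 : ZMod 2) else 0) ∈ D := by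
  have h := hmul _ (res_def L hL A hA D h1 hadd hmul hadj (res L u + 1)) _ (hadj _ hu)
  convert h using 1
  funext x
  rw [Pi.mul_apply]

  rw [rooted_sum]
  rcases x with w | q
  · change (if (Sum.inl w : VA (8 * L) A) = Sum.inl (u + 1) then (1 : ZMod 2) else 0) =
      (if res L w = res L u + 1 then 1 else 0) * (if (ringG L).Adj w u then 1 else 0)
    by_cases h3 : w = u + 1
    · rw [if_pos (congrArg Sum.inl h3), if_pos ((rooted_adj_iff L u w).1 h3).1, if_pos ((rooted_adj_iff L u w).1 h3).2, one_mul]
    · rw [if_neg (fun h => h3 (Sum.inl_injective h))]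
      by_cases h4 : res L w = res L u + 1
      · rw [if_neg (fun h => h3 ((rooted_adj_iff L u w).2 ⟨h4, h⟩)), mul_zero]
      · rw [if_neg h4, zero_mul]
  · change (if (Sum.inr q : VA (8 * L) A) = Sum.inl (u + 1) then (1 : ZMod 2) else 0) = 0 * _
    rw [if_neg (fun h => Sum.inr_ne_inl h), zero_mul]

include hL hA in
open Classical in
theorem rooted_core (D : Set (VA (8 * L) A → ZMod 2)) (h1 : (fun _ => 1) ∈ D) (hadd : ∀ f ∈ D, ∀ g ∈ D, f + g ∈ D)
    (hmul : ∀ f ∈ D, ∀ g ∈ D, f * g ∈ D)
    (hadj : ∀ f ∈ D, (fun x => ∑ y, if (compE (ringG L) A).Adj x y then f y else 0) ∈ D) (u0 : ZMod (8 * L))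
    (hu : (fun x : VA (8 * L) A => if x = Sum.inl u0 then (1 : ZMod 2) else 0) ∈ D) (u : ZMod (8 * L)) :
    (fun x : VA (8 * L) A => if x = Sum.inl u then (1 : ZMod 2) else 0) ∈ D := by
  have key : ∀ n : ℕ, (fun x : VA (8 * L) A => if x = Sum.inl (u0 + (n : ZMod (8 * L))) then (1 : ZMod 2) else 0) ∈ D := by
    intro n
    induction n with
    | zero => rw [Nat.cast_zero, add_zero]; exact hu
    | succ n ih =>
      rw [Nat.cast_succ, ← add_assoc]
      exact rooted_step L hL A hA D h1 hadd hmul hadj _ ih
  have h2 := key (u - u0).val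
  rw [ZMod.natCast_zmod_val, add_sub_cancel] at h2
  exact h2

include hL hA in
open Classical in
theorem rooted_def (D : Set (VA (8 * L) A → ZMod 2)) (h1 : (fun _ => 1) ∈ D) (hadd : ∀ f ∈ D, ∀ g ∈ D, f + g ∈ D)
    (hmul : ∀ f ∈ D, ∀ g ∈ D, f * g ∈ D)
    (hadj : ∀ f ∈ D, (fun x => ∑ y, if (compE (ringG L) A).Adj x y then f y else 0) ∈ D)
    (v : VA (8 * L) A) (hv : (fun x => if x = v then 1 else 0) ∈ D) (u : ZMod (8 * L)) :
    (fun x : VA (8 * L) A => if x = Sum.inl u then (1 : ZMod 2) else 0) ∈ D := by
  rcases v with v | ⟨p, s⟩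
  · exact rooted_core L hL A hA D h1 hadd hmul hadj v hv u
  · refine rooted_core L hL A hA D h1 hadd hmul hadj p.1 ?_ u
    have h := hmul _ (res_def L hL A hA D h1 hadd hmul hadj 7) _ (hadj _ hv)
    convert h using 1
    funext x
    rw [Pi.mul_apply]
    beta_reduce
    rw [rooted_sum]
    rcases x with w | q
    · change (if (Sum.inl w : VA (8 * L) A) = Sum.inl p.1 then (1 : ZMod 2) else 0) =
        (if res L w = 7 then 1 else 0) * (@ite _ (w = p.1) (propDecidable _) 1 0)
      by_cases h3 : w = p.1
      · rw [if_pos (congrArg Sum.inl h3), if_pos h3, if_pos (by rw [h3]; exact hA p.1 p.2), one_mul]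
      · rw [if_neg (fun h => h3 (Sum.inl_injective h)), if_neg h3, mul_zero]
    · change (if (Sum.inr q : VA (8 * L) A) = Sum.inl p.1 then (1 : ZMod 2) else 0) = 0 * _
      rw [if_neg (fun h => Sum.inr_ne_inl h), zero_mul]

open Classical in
theorem rooted_sum_adj {V : Type*} [Fintype V] (G : SimpleGraph V) (c : V → V) (f g : V → ZMod 2)
    (hg : ∀ z, f z = g (c z)) (x : V) :
    (∑ z, if G.Adj x z then f z else 0) =
      ∑ t, ((Finset.univ.filter (fun z => G.Adj x z ∧ c z = t)).card : ZMod 2) * g t := by
  have h1 : ∀ t, ((Finset.univ.filter (fun z => G.Adj x z ∧ c z = t)).card : ZMod 2) * g t =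
      ∑ z, if G.Adj x z ∧ c z = t then g t else 0 := by
    intro t
    rw [← Finset.sum_filter, Finset.sum_const, nsmul_eq_mul]
  rw [Finset.sum_congr rfl fun t _ => h1 t, Finset.sum_comm]
  refine Finset.sum_congr rfl fun z _ => ?_
  by_cases h : G.Adj x z
  · simp [h, hg]
  · simp [h]

include hL hA in
/-- in a rooted equitable partition modulo 2 each core vertex is alone in its class -/
theorem rooted_class (c : VA (8 * L) A → VA (8 * L) A) (hc : Equi (compE (ringG L) A) c) (v : VA (8 * L) A)
    (hv : ∀ x, c x = c v → x = v) (u : ZMod (8 * L)) (x : VA (8 * L) A) (hx : c x = c (Sum.inl u)) : x = Sum.inl u := by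
  classical
  have h := rooted_def L hL A hA {f | ∀ x y, c x = c y → f x = f y} (fun _ _ _ => rfl)
    (fun f hf g hg x y hxy => by simp only [Pi.add_apply]; rw [hf x y hxy, hg x y hxy])
    (fun f hf g hg x y hxy => by simp only [Pi.mul_apply]; rw [hf x y hxy, hg x y hxy])
    (by
      intro f hf x y hxy
      obtain ⟨g, hg⟩ : ∃ g : VA (8 * L) A → ZMod 2, ∀ z, f z = g (c z) := by
        have hfac : Function.FactorsThrough f c := fun a b hab => hf a b hab
        exact ⟨Function.extend c f 0, fun z => (hfac.extend_apply 0 z).symm⟩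
      have e1 := rooted_sum_adj (compE (ringG L) A) c f g hg x
      have e2 := rooted_sum_adj (compE (ringG L) A) c f g hg y
      have e4 := e1.trans ((Finset.sum_congr rfl fun t _ => by
        congr 1
        rw [ZMod.natCast_eq_natCast_iff']
        exact hc x y hxy t).trans e2.symm)
      convert e4 using 1) v
    (by
      intro x y hxy
      beta_reduce
      by_cases h3 : x = v
      · have h4 : y = v := hv y (by rw [← hxy, h3])
        rw [if_pos h3, if_pos h4]
      · have h4 : y ≠ v := fun h => h3 (hv x (by rw [hxy, h]))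
        rw [if_neg h3, if_neg h4]) u
  have h2 := h x (Sum.inl u) hx
  simp only at h2
  by_contra hy
  rw [if_neg hy, if_pos trivial] at h2
  exact zero_ne_one h2

end

end Pool.Agent.QAOA.CX
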