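import Pool.Agent.Lib_MP_debdb1_cz.Up
import Pool.Agent.Lib_MP_debdb1_cz.Rooted
import Pool.Agent.Lib_MP_debdb1_cz.Asy
import Pool.Agent.Lib_MP_debdb1_cz.Root2
import Pool.Agent.Lib_MP_debdb1_cz.Lin
import Pool.Agent.Lib_MP_debdb1_cz.Low
import Pool.Agent.Lib_MP_debdb1_cx.SumC
import Pool.Agent.Lib_MP_debdb1_cx.LbDim

/-!
# Assembly of the connected counterexample
-/

set_option autoImplicit false

namespace Pool.Agent.QAOA.CX

open Matrix Pool.Agent.QAOA

section
variable (L : ℕ) [NeZero L] (hL : 3 ≤ L)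

theorem mz_res (p : ZMod (8 * L)) (hp : p ∈ (posP L).erase 7) : res L p = 7 :=
  (Finset.mem_filter.1 (Finset.mem_of_mem_erase hp)).2

theorem mz_zero : (0 : ZMod (8 * L)) ∉ (posP L).erase 7 := by
  intro h
  have h1 := mz_res L 0 h
  rw [map_zero] at h1
  exact absurd h1 (by decide)

theorem mz_one : (1 : ZMod (8 * L)) ∉ (posP L).erase 7 := by
  intro h
  have h1 := mz_res L 1 h
  rw [map_one] at h1
  exact absurd h1 (by decide)

theorem mz_two : (2 : ZMod (8 * L)) ∉ (posP L).erase 7 := by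
  intro h
  have h1 := mz_res L 2 h
  rw [show (2 : ZMod (8 * L)) = 1 + 1 by norm_num, map_add, map_one] at h1
  exact absurd h1 (by decide)

theorem mz_adj1 (u : ZMod (8 * L)) : (ringG L).Adj u (u + 1) := by
  refine ⟨fun h => ?_, Or.inl rfl⟩
  have h1 : res L u = res L u + 1 := by
    conv_lhs => rw [h]
    rw [map_add, map_one]
  have h2 : (1 : ZMod 8) = 0 := by
    have := sub_eq_zero.2 h1
    rw [sub_add_cancel_left] at this
    exact neg_eq_zero.1 this
  exact absurd h2 (by decide)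

theorem mz_adj2 (u : ZMod (8 * L)) : (ringG L).Adj u (u + 2) := by
  refine ⟨fun h => ?_, Or.inr (Or.inr (Or.inl rfl))⟩
  have h1 : res L u = res L u + 2 := by
    conv_lhs => rw [h]
    rw [show u + 2 = u + 1 + 1 by ring, map_add, map_add, map_one]
    ring
  have h2 : (2 : ZMod 8) = 0 := by
    have := sub_eq_zero.2 h1
    rw [sub_add_cancel_left] at this
    exact neg_eq_zero.1 this
  exact absurd h2 (by decide)

include hL in
/-- the operators `X_u` of all core vertices lie in the frozen algebra -/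
theorem mz_px (v : VA (8 * L) ((posP L).erase 7)) (u : {w : VA (8 * L) ((posP L).erase 7) // w ≠ v})
    (hu : ∃ u0 : ZMod (8 * L), u.1 = Sum.inl u0) : px u ∈ genC (HPr (gamG L) v) (HM {w // w ≠ v}) := by
  classical
  obtain ⟨u0, hu0⟩ := hu
  obtain ⟨c, hc, hv, hm⟩ := exists_equi_root (gamG L) v
  have h := hm (c u.1)
  have e : (∑ x : {x : VA (8 * L) ((posP L).erase 7) // x ≠ v}, if c x.1 = c u.1 then px x else 0) = px u := by
    rw [Finset.sum_eq_single u]
    · exact if_pos rfl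
    · intro x _ hx
      refine if_neg fun h => hx (Subtype.ext ?_)
      rw [hu0] at h ⊢
      exact rooted_class L hL _ (mz_res L) c hc v hv u0 x.1 h
    · intro h
      exact absurd (Finset.mem_univ _) h
  refine SumP.genC_of_gen _ _ ?_
  change _ ∈ gRed (gamG L) v
  rw [← e]
  convert h

include hL in
theorem mz_idH (v : VA (8 * L) ((posP L).erase 7)) :
    IdH (compE (ringG L) ((posP L).erase 7)) v (fun w => ∃ u : ZMod (8 * L), w.1 = Sum.inl u)
      (genC (HPr (gamG L) v) (HM {w // w ≠ v})) where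
  br _ hM _ hN := SumP.genC_br _ _ hM hN
  hP _ hM := SumP.genC_br _ _ (SumP.genC_left _ _) hM
  hM _ hM := SumP.genC_br _ _ (SumP.genC_right _ _) hM
  hX u hu _ hM := SumP.genC_br _ _ (mz_px L hL v u hu) hM
  hN := lin_mem (gamG L) v

include hL in
theorem mz_lower (v : VA (8 * L) ((posP L).erase 7)) :
    4 ^ (8 * L - 3) * Module.finrank ℂ SS ^ (L - 2) ≤ Module.finrank ℂ (genC (HPr (gamG L) v) (HM {w // w ≠ v})) := by
  obtain ⟨a, b, ha, hab, hq⟩ := lower1E (8 * L) (by omega) (ringG L) (mz_adj1 L) (mz_adj2 L) ((posP L).erase 7)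
    (mz_zero L) (mz_one L) (mz_two L) v _ (mz_idH L hL v)
  have h := lower2 (8 * L) ((posP L).erase 7) v _ a b ha hab hq
  have e : ((posP L).erase 7).card - 1 = L - 2 := by
    rw [Finset.card_erase_of_mem (seven_mem L), card_posP]
    omega
  rwa [e] at h

end

/-- the numerical inequality -/
theorem mz_num (a L R m C : ℕ) (ha : 2 ≤ a) (hC : 1 ≤ C) (hL : 256 * C * a ^ 2 ≤ L) (hm : 4 ≤ m)
    (hR : L * R ≤ a ^ L + L * a) : C * (1 + R * 4 ^ m) < 4 ^ (m - 3) * a ^ (L - 2) := by
  have ha2 : 4 ≤ a ^ 2 := by nlinarith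
  have hL1 : 1024 * C ≤ L := by nlinarith
  set P := a ^ (L - 2) with hP
  have hPL : a ^ L = a ^ 2 * P := by
    rw [hP, ← pow_add]
    congr 1
    omega
  have hPa : 256 * C * a ≤ P := by
    have h1 : P = a ^ (L - 3) * a := by
      rw [hP, ← pow_succ]
      congr 1
      omega
    have h2 : 256 * C ≤ a ^ (L - 3) := by
      calc 256 * C ≤ L - 3 := by omega
        _ ≤ 2 ^ (L - 3) := Nat.le_of_lt Nat.lt_two_pow_self
        _ ≤ a ^ (L - 3) := Nat.pow_le_pow_left ha _
    rw [h1]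
    exact Nat.mul_le_mul_right _ h2
  have h128 : 128 * (C * R) ≤ P := by
    have h1 : L * (256 * (C * R)) ≤ L * (2 * P) := by
      calc L * (256 * (C * R)) = 256 * C * (L * R) := by ring
        _ ≤ 256 * C * (a ^ L + L * a) := Nat.mul_le_mul_left _ hR
        _ = (256 * C * a ^ 2) * P + L * (256 * C * a) := by rw [hPL]; ring
        _ ≤ L * P + L * P := Nat.add_le_add (Nat.mul_le_mul_right _ hL) (Nat.mul_le_mul_left _ hPa)
        _ = L * (2 * P) := by ring
    have h2 := Nat.le_of_mul_le_mul_left h1 (by omega)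
    omega
  have hPC : 256 * C ≤ P := by nlinarith
  have hQ : 4 ^ m = 64 * 4 ^ (m - 3) := by
    conv_lhs => rw [show m = (m - 3) + 3 by omega, pow_add]
    ring
  have hQ2 : 4 ≤ 4 ^ (m - 3) := by
    calc 4 = 4 ^ 1 := by norm_num
      _ ≤ 4 ^ (m - 3) := Nat.pow_le_pow_right (by norm_num) (by omega)
  rw [hQ]
  generalize 4 ^ (m - 3) = Q at hQ2 ⊢
  have h3 : 64 * (C * R) + C < P := by omega
  calc C * (1 + R * (64 * Q)) = C + Q * (64 * (C * R)) := by ring
    _ ≤ Q * C + Q * (64 * (C * R)) := Nat.add_le_add_right (Nat.le_mul_of_pos_left _ (by omega)) _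
    _ = Q * (64 * (C * R) + C) := by ring
    _ < Q * P := Nat.mul_lt_mul_of_pos_left h3 (by omega)

/-- for every `C` there is a connected asymmetric graph all of whose reduced Lie algebras have dimension larger than `C` times
the dimension of the full one -/
theorem main_conn (C : ℕ) : ∃ (V : Type) (_ : Fintype V) (_ : DecidableEq V) (Γ : SimpleGraph V), Γ.Connected ∧
    Asymmetric Γ ∧ ∀ v, C * Module.finrank ℝ (gStd Γ) < Module.finrank ℝ (gRed Γ v) := by
  obtain ⟨n, e, hn, hfin, _⟩ := SS_basis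
  obtain ⟨L, hLge, hLp⟩ := Nat.exists_infinite_primes (256 * (C + 1) * (Module.finrank ℂ SS) ^ 2)
  have : Fact L.Prime := ⟨hLp⟩
  have : NeZero L := ⟨hLp.ne_zero⟩
  have ha : 2 ≤ Module.finrank ℂ SS := by omega
  have hL3 : 3 ≤ L := by nlinarith
  refine ⟨VA (8 * L) ((posP L).erase 7), inferInstance, inferInstance, gamG L, gamG_connected L hL3, gamG_asymmetric L hL3,
    fun v => ?_⟩
  obtain ⟨R, hR, hup⟩ := upper_gam L
  have hnum := mz_num (Module.finrank ℂ SS) L R (8 * L) (C + 1) ha (by omega) hLge (by omega) hR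
  rw [SumP.finrank_gStd, SumP.finrank_gRed]
  calc C * Module.finrank ℂ (genC (HP (gamG L)) (HM (VA (8 * L) ((posP L).erase 7))))
      ≤ (C + 1) * (1 + R * 4 ^ (8 * L)) := Nat.mul_le_mul (Nat.le_succ C) hup
    _ < 4 ^ (8 * L - 3) * Module.finrank ℂ SS ^ (L - 2) := hnum
    _ ≤ Module.finrank ℂ (genC (HPr (gamG L) v) (HM {w // w ≠ v})) := mz_lower L hL3 v

end Pool.Agent.QAOA.CX
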