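import Pool.Agent.Lib_MP_debdb1_cz.Base

/-!
# Piece POSE: the gadget positions are indexed by `ZMod L`
-/

set_option autoImplicit false

namespace Pool.Agent.QAOA.CX

open Matrix Pool.Agent.QAOA

theorem pose_cast_eq (L a b : ℕ) :
    ((8 * a : ℕ) : ZMod (8 * L)) = ((8 * b : ℕ) : ZMod (8 * L)) ↔ (a : ZMod L) = (b : ZMod L) := by
  rw [ZMod.natCast_eq_natCast_iff, ZMod.natCast_eq_natCast_iff]
  constructor
  · intro h
    exact Nat.ModEq.mul_left_cancel' (by norm_num) h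
  · intro h
    exact Nat.ModEq.mul_left' 8 h

theorem pose_mem (L : ℕ) [NeZero L] (a : ℕ) : ((8 * a + 7 : ℕ) : ZMod (8 * L)) ∈ posP L := by
  refine Finset.mem_filter.2 ⟨Finset.mem_univ _, ?_⟩
  rw [map_natCast, Nat.cast_add, Nat.cast_mul]
  have h8 : ((8 : ℕ) : ZMod 8) = 0 := ZMod.natCast_self 8
  rw [h8, zero_mul, zero_add]
  rfl

theorem exists_pos (L : ℕ) [NeZero L] :
    ∃ pos : ZMod L ≃ {p : ZMod (8 * L) // p ∈ posP L}, ∀ i, (pos i).1 + 8 = (pos (i + 1)).1 := by
  have hbij : Function.Bijective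
      (fun i : ZMod L => (⟨((8 * i.val + 7 : ℕ) : ZMod (8 * L)), pose_mem L i.val⟩ :
        {p : ZMod (8 * L) // p ∈ posP L})) := by
    constructor
    · intro i j hij
      have h := congrArg Subtype.val hij
      simp only [Nat.cast_add, add_left_inj] at h
      have h2 := (pose_cast_eq L i.val j.val).1 h
      rwa [ZMod.natCast_zmod_val, ZMod.natCast_zmod_val] at h2
    · rintro ⟨p, hp⟩
      have hp7 : res L p = 7 := (Finset.mem_filter.1 hp).2
      have h1 : ((p.val : ℕ) : ZMod 8) = ((7 : ℕ) : ZMod 8) := by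
        rw [← map_natCast (res L), ZMod.natCast_zmod_val, hp7]
        rfl
      rw [ZMod.natCast_eq_natCast_iff] at h1
      have h2 : p.val % 8 = 7 := h1
      have h3 : p.val = 8 * (p.val / 8) + 7 := by omega
      refine ⟨((p.val / 8 : ℕ) : ZMod L), Subtype.ext ?_⟩
      show ((8 * ((p.val / 8 : ℕ) : ZMod L).val + 7 : ℕ) : ZMod (8 * L)) = p
      rw [Nat.cast_add]
      rw [(pose_cast_eq L ((p.val / 8 : ℕ) : ZMod L).val (p.val / 8)).2
        (by rw [ZMod.natCast_zmod_val])]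
      rw [← Nat.cast_add, ← h3, ZMod.natCast_zmod_val]
  refine ⟨Equiv.ofBijective _ hbij, fun i => ?_⟩
  show ((8 * i.val + 7 : ℕ) : ZMod (8 * L)) + 8 = ((8 * (i + 1).val + 7 : ℕ) : ZMod (8 * L))
  have h1 : ((8 * (i + 1).val : ℕ) : ZMod (8 * L)) = ((8 * (i.val + 1) : ℕ) : ZMod (8 * L)) := by
    rw [pose_cast_eq]
    rw [ZMod.natCast_zmod_val, Nat.cast_add, ZMod.natCast_zmod_val, Nat.cast_one]
  rw [Nat.cast_add (8 * (i + 1).val), h1]
  push_cast
  ring

theorem card_posP (L : ℕ) [NeZero L] : (posP L).card = L := by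
  obtain ⟨pos, -⟩ := exists_pos L
  have h := Fintype.card_congr pos
  rw [ZMod.card, Fintype.card_coe] at h
  exact h.symm

end Pool.Agent.QAOA.CX
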