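import Pool.Agent.Lib_MP_debdb1_cz.ResA
import Pool.Agent.Lib_MP_debdb1_cx.Gad

/-!
# Piece RES: the residue classes of the ring are determined by parity refinement
-/

set_option autoImplicit false

namespace Pool.Agent.QAOA.CX

open Matrix Pool.Agent.QAOA

section
variable (L : ℕ) [NeZero L] (hL : 3 ≤ L) (A : Finset (ZMod (8 * L))) (hA : ∀ p ∈ A, res L p = 7)

/-- the function with the value `φ` (residue) on the core and `γ` on the gadgets -/
def clF (φ : ZMod 8 → ZMod 2) (γ : ZMod 2) : VA (8 * L) A → ZMod 2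
  | Sum.inl u => φ (res L u)
  | Sum.inr _ => γ

/-- the adjacency operator modulo 2 on the residues -/
def A0 (φ : ZMod 8 → ZMod 2) (r : ZMod 8) : ZMod 2 :=
  φ (r + 1) + φ (r - 1) + φ (r + 2) + φ (r - 2) + (if r = 0 then φ 3 else 0) + (if r = 3 then φ 0 else 0) +
    (if r = 1 then φ 5 else 0) + (if r = 5 then φ 1 else 0)

include hL hA in
open Classical in
theorem adj_clF (φ : ZMod 8 → ZMod 2) (γ : ZMod 2) :
    (fun x => ∑ y, if (compE (ringG L) A).Adj x y then clF L A φ γ y else 0) = clF L A (A0 φ) (φ 7) := by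
  funext x
  rcases x with u | ⟨p, s⟩
  · rw [adj_core]
    have h8 : ∀ z : ZMod 2, (8 : ℕ) • z = 0 := by decide
    have e2 : (∑ q : {p : ZMod (8 * L) // p ∈ A} × Fin 8, if u = q.1.1 then clF L A φ γ (Sum.inr q) else 0) = 0 := by
      rw [Fintype.sum_prod_type]
      refine Finset.sum_eq_zero fun p _ => ?_
      change (∑ _s : Fin 8, if u = p.1 then γ else 0) = 0
      rw [Finset.sum_const, Finset.card_univ, Fintype.card_fin]
      exact h8 _
    have e1 : (∑ w, if (ringG L).Adj u w then clF L A φ γ (Sum.inl w) else 0) = A0 φ (res L u) := by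
      change (∑ w, if (ringG L).Adj u w then φ (res L w) else 0) = A0 φ (res L u)
      rw [sum_core L hL u (fun w => φ (res L w))]
      have r1 : res L 1 = 1 := map_one _
      have r2 : res L 2 = 2 := map_ofNat (res L) 2
      have r3 : res L 3 = 3 := map_ofNat (res L) 3
      have r4 : res L 4 = 4 := map_ofNat (res L) 4
      simp only [map_add, map_sub, r1, r2, r3, r4, A0]
      congr 1
      · congr 1
        · congr 1
          · congr 1
            by_cases h : res L u = 0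
            · rw [if_pos h, if_pos h, h, zero_add]
            · rw [if_neg h, if_neg h]
          · by_cases h : res L u = 3
            · rw [if_pos h, if_pos h, h, sub_self]
            · rw [if_neg h, if_neg h]
        · by_cases h : res L u = 1
          · rw [if_pos h, if_pos h, h]
            rfl
          · rw [if_neg h, if_neg h]
      · by_cases h : res L u = 5
        · rw [if_pos h, if_pos h, h]
          rfl
        · rw [if_neg h, if_neg h]
    rw [e1, e2, add_zero]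
    rfl
  · rw [Fintype.sum_sum_type]
    have e1 : (∑ w : ZMod (8 * L), if (compE (ringG L) A).Adj (Sum.inr (p, s)) (Sum.inl w) then
        clF L A φ γ (Sum.inl w) else 0) = φ 7 := by
      rw [Finset.sum_eq_single p.1]
      · rw [if_pos (show (compE (ringG L) A).Adj (Sum.inr (p, s)) (Sum.inl p.1) from rfl)]
        exact congrArg φ (hA p.1 p.2)
      · intro w _ hw
        rw [if_neg (show ¬ (compE (ringG L) A).Adj (Sum.inr (p, s)) (Sum.inl w) from hw)]
      · intro h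
        exact absurd (Finset.mem_univ _) h
    have e0 : ∀ q : {p : ZMod (8 * L) // p ∈ A} × Fin 8,
        (if (compE (ringG L) A).Adj (Sum.inr (p, s)) (Sum.inr q) then clF L A φ γ (Sum.inr q) else 0) =
          if (p = q.1 ∧ GS.Adj s q.2) then γ else 0 := by
      intro q
      by_cases h : p = q.1 ∧ GS.Adj s q.2
      · rw [if_pos h, if_pos (show (compE (ringG L) A).Adj (Sum.inr (p, s)) (Sum.inr q) from h)]
        rfl
      · rw [if_neg h, if_neg (show ¬ (compE (ringG L) A).Adj (Sum.inr (p, s)) (Sum.inr q) from h)]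
    have e2 : (∑ q : {p : ZMod (8 * L) // p ∈ A} × Fin 8, if (p = q.1 ∧ GS.Adj s q.2) then γ else 0) = 0 := by
      rw [Fintype.sum_prod_type, Finset.sum_eq_single p]
      · have h1 : (∑ t : Fin 8, if (p = p ∧ GS.Adj s t) then γ else 0) =
            (Finset.univ.filter (fun t => GS.Adj s t)).card • γ := by
          rw [← Finset.sum_const, Finset.sum_filter]
          refine Finset.sum_congr rfl fun t _ => ?_
          by_cases h : GS.Adj s t
          · rw [if_pos ⟨rfl, h⟩, if_pos h]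
          · rw [if_neg (fun h' => h h'.2), if_neg h]
        rw [h1]
        have h2 := GS_even s
        have h3 : (Finset.univ.filter (fun t => GS.Adj s t)).card =
            2 * ((Finset.univ.filter (fun t => GS.Adj s t)).card / 2) := by
          omega
        have h4 : ∀ (n : ℕ) (z : ZMod 2), (2 * n) • z = 0 := by
          intro n z
          rw [mul_comm, mul_nsmul]
          have : ∀ z : ZMod 2, (2 : ℕ) • z = 0 := by decide
          rw [this]
        convert h4 _ γ using 2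
        convert h3 using 2
      · intro q _ hq
        refine Finset.sum_eq_zero fun t _ => ?_
        rw [if_neg]
        rintro ⟨h, -⟩
        exact hq h.symm
      · intro h
        exact absurd (Finset.mem_univ p) h
    rw [e1, Finset.sum_congr rfl fun q _ => e0 q, e2, add_zero]
    rfl

omit [NeZero L] in
theorem clF_add (φ ψ : ZMod 8 → ZMod 2) (γ δ : ZMod 2) : clF L A φ γ + clF L A ψ δ = clF L A (φ + ψ) (γ + δ) := by
  funext x
  rcases x with u | p
  · rfl
  · rfl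

omit [NeZero L] in
theorem clF_mul (φ ψ : ZMod 8 → ZMod 2) (γ δ : ZMod 2) : clF L A φ γ * clF L A ψ δ = clF L A (φ * ψ) (γ * δ) := by
  funext x
  rcases x with u | p
  · rfl
  · rfl

omit [NeZero L] in
theorem clF_one : clF L A (fun _ => 1) 1 = fun _ => 1 := by
  funext x
  rcases x with u | p
  · rfl
  · rfl

/-- a function on the residues from a list of values -/
def ph (v : Fin 8 → ZMod 2) : ZMod 8 → ZMod 2 := v

include hL hA in
open Classical in
theorem res_def (D : Set (VA (8 * L) A → ZMod 2)) (h1 : (fun _ => 1) ∈ D) (hadd : ∀ f ∈ D, ∀ g ∈ D, f + g ∈ D)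
    (hmul : ∀ f ∈ D, ∀ g ∈ D, f * g ∈ D)
    (hadj : ∀ f ∈ D, (fun x => ∑ y, if (compE (ringG L) A).Adj x y then f y else 0) ∈ D) (r : ZMod 8) :
    clF L A (fun s => if s = r then 1 else 0) 0 ∈ D := by
  have P : ∀ (φ : ZMod 8 → ZMod 2) (γ : ZMod 2) (φ' : ZMod 8 → ZMod 2) (γ' : ZMod 2), clF L A φ γ ∈ D → φ = φ' → γ = γ' →
      clF L A φ' γ' ∈ D := by
    rintro φ γ _ _ h rfl rfl
    exact h
  have hA' : ∀ (φ : ZMod 8 → ZMod 2) (γ : ZMod 2), clF L A φ γ ∈ D → clF L A (A0 φ) (φ 7) ∈ D := by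
    intro φ γ h
    rw [← adj_clF L hL A hA φ γ]
    exact hadj _ h
  have ha : ∀ (φ ψ : ZMod 8 → ZMod 2) (γ δ : ZMod 2), clF L A φ γ ∈ D → clF L A ψ δ ∈ D → clF L A (φ + ψ) (γ + δ) ∈ D := by
    intro φ ψ γ δ h h'
    rw [← clF_add]
    exact hadd _ h _ h'
  have hm : ∀ (φ ψ : ZMod 8 → ZMod 2) (γ δ : ZMod 2), clF L A φ γ ∈ D → clF L A ψ δ ∈ D → clF L A (φ * ψ) (γ * δ) ∈ D := by
    intro φ ψ γ δ h h'
    rw [← clF_mul]
    exact hmul _ h _ h'
  have u1 : clF L A (ph ![1, 1, 1, 1, 1, 1, 1, 1]) 1 ∈ D := P (fun _ => 1) 1 _ _ (by rw [clF_one]; exact h1) (by decide) rfl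
  have d1 : clF L A (ph ![1, 1, 0, 1, 0, 1, 0, 0]) 1 ∈ D := P _ _ _ _ (hA' _ _ u1) (by decide) (by decide)
  have e1 : clF L A (ph ![0, 0, 1, 0, 1, 0, 1, 1]) 0 ∈ D := P _ _ _ _ (ha _ _ _ _ u1 d1) (by decide) (by decide)
  have g1 : clF L A (ph ![1, 0, 1, 0, 0, 1, 0, 1]) 1 ∈ D := P _ _ _ _ (hA' _ _ e1) (by decide) (by decide)
  have e27 : clF L A (ph ![0, 0, 1, 0, 0, 0, 0, 1]) 0 ∈ D := P _ _ _ _ (hm _ _ _ _ e1 g1) (by decide) (by decide)
  have e46 : clF L A (ph ![0, 0, 0, 0, 1, 0, 1, 0]) 0 ∈ D := P _ _ _ _ (ha _ _ _ _ e1 e27) (by decide) (by decide)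
  have x1 : clF L A (ph ![1, 0, 0, 0, 0, 1, 0, 0]) 1 ∈ D := P _ _ _ _ (hm _ _ _ _ d1 g1) (by decide) (by decide)
  have y1 : clF L A (ph ![0, 1, 0, 1, 0, 0, 0, 0]) 0 ∈ D := P _ _ _ _ (ha _ _ _ _ d1 x1) (by decide) (by decide)
  have k1 : clF L A (ph ![0, 1, 0, 1, 1, 0, 0, 1]) 0 ∈ D := P _ _ _ _ (hA' _ _ y1) (by decide) (by decide)
  have R7 : clF L A (ph ![0, 0, 0, 0, 0, 0, 0, 1]) 0 ∈ D := P _ _ _ _ (hm _ _ _ _ e27 k1) (by decide) (by decide)
  have R2 : clF L A (ph ![0, 0, 1, 0, 0, 0, 0, 0]) 0 ∈ D := P _ _ _ _ (ha _ _ _ _ e27 R7) (by decide) (by decide)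
  have R4 : clF L A (ph ![0, 0, 0, 0, 1, 0, 0, 0]) 0 ∈ D := P _ _ _ _ (hm _ _ _ _ e46 k1) (by decide) (by decide)
  have R6 : clF L A (ph ![0, 0, 0, 0, 0, 0, 1, 0]) 0 ∈ D := P _ _ _ _ (ha _ _ _ _ e46 R4) (by decide) (by decide)
  have R0 : clF L A (ph ![1, 0, 0, 0, 0, 0, 0, 0]) 0 ∈ D := P _ _ _ _ (hm _ _ _ _ x1 (hA' _ _ R2)) (by decide) (by decide)
  have R5 : clF L A (ph ![0, 0, 0, 0, 0, 1, 0, 0]) 0 ∈ D :=
    P _ _ _ _ (ha _ _ _ _ (hm _ _ _ _ x1 (hA' _ _ R6)) R0) (by decide) (by decide)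
  have R3 : clF L A (ph ![0, 0, 0, 1, 0, 0, 0, 0]) 0 ∈ D := P _ _ _ _ (hm _ _ _ _ y1 (hA' _ _ R4)) (by decide) (by decide)
  have R1 : clF L A (ph ![0, 1, 0, 0, 0, 0, 0, 0]) 0 ∈ D := P _ _ _ _ (ha _ _ _ _ y1 R3) (by decide) (by decide)
  have key : ∀ r : ZMod 8, r = 0 ∨ r = 1 ∨ r = 2 ∨ r = 3 ∨ r = 4 ∨ r = 5 ∨ r = 6 ∨ r = 7 := by decide
  rcases key r with rfl | rfl | rfl | rfl | rfl | rfl | rfl | rfl
  · exact P _ _ _ _ R0 (by decide) rfl
  · exact P _ _ _ _ R1 (by decide) rfl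
  · exact P _ _ _ _ R2 (by decide) rfl
  · exact P _ _ _ _ R3 (by decide) rfl
  · exact P _ _ _ _ R4 (by decide) rfl
  · exact P _ _ _ _ R5 (by decide) rfl
  · exact P _ _ _ _ R6 (by decide) rfl
  · exact P _ _ _ _ R7 (by decide) rfl

end

end Pool.Agent.QAOA.CX
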