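import Pool.Agent.Lib_MP_debdb1_cz.Base

/-!
# Piece RES, part A: the adjacency operator at a core vertex
-/

set_option autoImplicit false

namespace Pool.Agent.QAOA.CX

open Matrix Pool.Agent.QAOA

namespace RA

theorem ne_of {L : ℕ} (hL : 3 ≤ L) {a b : ℤ} (h : a ≠ b) (h1 : |b - a| < 24) :
    (a : ZMod (8 * L)) ≠ (b : ZMod (8 * L)) := by
  intro h'
  rw [ZMod.intCast_eq_intCast_iff_dvd_sub] at h'
  have := Int.eq_zero_of_abs_lt_dvd h' (lt_of_lt_of_le h1 (by push_cast; omega))
  omega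

/-- the differences -/
def ff : Fin 8 → ℤ := ![1, -1, 2, -2, 3, -3, 4, -4]

variable {L : ℕ}

/-- the cases of the adjacency -/
def cc (u w : ZMod (8 * L)) : Fin 8 → Prop :=
  ![w = u + 1, w = u - 1, w = u + 2, w = u - 2, res L u = 0 ∧ w = u + 3, res L u = 3 ∧ w = u - 3, res L u = 1 ∧ w = u + 4,
    res L u = 5 ∧ w = u - 4]

theorem cc_diff {u w : ZMod (8 * L)} (i : Fin 8) (h : cc u w i) : w = u + ((ff i : ℤ) : ZMod (8 * L)) := by
  fin_cases i
  · simpa [cc, ff] using h
  · have h' : w = u - 1 := h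
    rw [h']; simp [ff]; ring
  · simpa [cc, ff] using h
  · have h' : w = u - 2 := h
    rw [h']; simp [ff]; ring
  · obtain ⟨-, h'⟩ : res L u = 0 ∧ w = u + 3 := h
    rw [h']; simp [ff]
  · obtain ⟨-, h'⟩ : res L u = 3 ∧ w = u - 3 := h
    rw [h']; simp [ff]; ring
  · obtain ⟨-, h'⟩ : res L u = 1 ∧ w = u + 4 := h
    rw [h']; simp [ff]
  · obtain ⟨-, h'⟩ : res L u = 5 ∧ w = u - 4 := h
    rw [h']; simp [ff]; ring

theorem ff_inj : ∀ i j : Fin 8, ff i = ff j → i = j := by decide

theorem ff_le : ∀ i j : Fin 8, |ff i - ff j| < 24 := by decide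

theorem ff_ne : ∀ i : Fin 8, ff i ≠ 0 ∧ |0 - ff i| < 24 := by decide

theorem cc_unique (hL : 3 ≤ L) {u w : ZMod (8 * L)} {i j : Fin 8} (hi : cc u w i) (hj : cc u w j) : i = j := by
  by_contra h
  have h1 := cc_diff i hi
  have h2 := cc_diff j hj
  rw [h1] at h2
  exact ne_of hL (fun h' => h (ff_inj i j h')) (ff_le j i) (add_left_cancel h2)

theorem res_three : res L 3 = 3 := map_ofNat (res L) 3

theorem res_four : res L 4 = 4 := map_ofNat (res L) 4

theorem adj_iff (hL : 3 ≤ L) (u w : ZMod (8 * L)) : (ringG L).Adj u w ↔ ∃ i, cc u w i := by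
  constructor
  · rintro ⟨h0, h | h | h | h | h | ⟨h, h'⟩ | h | ⟨h, h'⟩⟩
    · exact ⟨0, h⟩
    · exact ⟨1, show w = u - 1 by rw [h]; ring⟩
    · exact ⟨2, h⟩
    · exact ⟨3, show w = u - 2 by rw [h]; ring⟩
    · exact ⟨4, h⟩
    · exact ⟨5, show res L u = 3 ∧ w = u - 3 from
        ⟨by rw [h', map_add, h, res_three, zero_add], by rw [h']; ring⟩⟩
    · exact ⟨6, h⟩
    · exact ⟨7, show res L u = 5 ∧ w = u - 4 from
        ⟨by rw [h', map_add, h, res_four]; decide, by rw [h']; ring⟩⟩
  · rintro ⟨i, hi⟩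
    refine ⟨?_, ?_⟩
    · intro h
      have h1 := cc_diff i hi
      rw [← h] at h1
      have h2 : ((ff i : ℤ) : ZMod (8 * L)) = ((0 : ℤ) : ZMod (8 * L)) := by
        rw [Int.cast_zero]
        exact (add_eq_left.1 h1.symm)
      exact ne_of hL (ff_ne i).1 (ff_ne i).2 h2
    · fin_cases i
      · exact Or.inl hi
      · right; left
        have h' : w = u - 1 := hi
        rw [h']; ring
      · exact Or.inr (Or.inr (Or.inl hi))
      · right; right; right; left
        have h' : w = u - 2 := hi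
        rw [h']; ring
      · exact Or.inr (Or.inr (Or.inr (Or.inr (Or.inl hi))))
      · obtain ⟨h1, h2⟩ : res L u = 3 ∧ w = u - 3 := hi
        refine Or.inr (Or.inr (Or.inr (Or.inr (Or.inr (Or.inl ⟨?_, ?_⟩)))))
        · rw [h2, map_sub, h1, res_three, sub_self]
        · rw [h2]; ring
      · exact Or.inr (Or.inr (Or.inr (Or.inr (Or.inr (Or.inr (Or.inl hi))))))
      · obtain ⟨h1, h2⟩ : res L u = 5 ∧ w = u - 4 := hi
        refine Or.inr (Or.inr (Or.inr (Or.inr (Or.inr (Or.inr (Or.inr ⟨?_, ?_⟩))))))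
        · rw [h2, map_sub, h1, res_four]; decide
        · rw [h2]; ring

open Classical in
theorem adj_sum (hL : 3 ≤ L) (u w : ZMod (8 * L)) : (if (ringG L).Adj u w then (1 : ZMod 2) else 0) =
    ∑ i : Fin 8, if cc u w i then 1 else 0 := by
  by_cases h : ∃ i, cc u w i
  · obtain ⟨i, hi⟩ := h
    rw [if_pos ((adj_iff hL u w).2 ⟨i, hi⟩), Finset.sum_eq_single i]
    · rw [if_pos hi]
    · intro j _ hj
      rw [if_neg (fun h => hj (cc_unique hL h hi))]
    · intro h
      exact absurd (Finset.mem_univ _) h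
  · rw [if_neg (fun h' => h ((adj_iff hL u w).1 h'))]
    symm
    apply Finset.sum_eq_zero
    intro i _
    rw [if_neg (fun h' => h ⟨i, h'⟩)]

end RA

section
variable (L : ℕ) [NeZero L] (hL : 3 ≤ L) (A : Finset (ZMod (8 * L))) (hA : ∀ p ∈ A, res L p = 7)

include hL in
open Classical in
/-- sums over the core neighbours of a core vertex -/
theorem sum_core (u : ZMod (8 * L)) (f : ZMod (8 * L) → ZMod 2) :
    (∑ w, if (ringG L).Adj u w then f w else 0) = f (u + 1) + f (u - 1) + f (u + 2) + f (u - 2) +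
      (if res L u = 0 then f (u + 3) else 0) + (if res L u = 3 then f (u - 3) else 0) +
      (if res L u = 1 then f (u + 4) else 0) + (if res L u = 5 then f (u - 4) else 0) := by
  have h1 : ∀ w, (if (ringG L).Adj u w then f w else 0) = ∑ i : Fin 8, if RA.cc u w i then f w else 0 := by
    intro w
    have h2 : (if (ringG L).Adj u w then f w else 0) = (if (ringG L).Adj u w then (1 : ZMod 2) else 0) * f w := by
      split_ifs <;> simp
    rw [h2, RA.adj_sum hL, Finset.sum_mul]
    apply Finset.sum_congr rfl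
    intro i _
    split_ifs <;> simp
  have h3 : ∀ (P : ZMod (8 * L) → Prop) (a : ZMod (8 * L)), (∀ w, P w ↔ w = a) →
      (∑ w, if P w then f w else 0) = f a := by
    intro P a hP
    rw [Finset.sum_eq_single a]
    · exact if_pos ((hP a).2 rfl)
    · intro w _ hw
      exact if_neg (fun h => hw ((hP w).1 h))
    · intro h
      exact absurd (Finset.mem_univ _) h
  have h4 : ∀ (P : ZMod (8 * L) → Prop) (r : ZMod 8) (b : ZMod (8 * L)), (∀ w, P w ↔ res L u = r ∧ w = b) →
      (∑ w, if P w then f w else 0) = if res L u = r then f b else 0 := by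
    intro P r b hP
    by_cases h : res L u = r
    · rw [if_pos h]
      exact h3 P b (fun w => ⟨fun h' => ((hP w).1 h').2, fun h' => (hP w).2 ⟨h, h'⟩⟩)
    · rw [if_neg h]
      exact Finset.sum_eq_zero fun w _ => if_neg (fun h' => h ((hP w).1 h').1)
  simp_rw [h1]
  rw [Finset.sum_comm, Fin.sum_univ_eight]
  have e0 := h3 (fun w => RA.cc u w 0) (u + 1) fun w => Iff.rfl
  have e1 := h3 (fun w => RA.cc u w 1) (u - 1) fun w => Iff.rfl
  have e2 := h3 (fun w => RA.cc u w 2) (u + 2) fun w => Iff.rfl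
  have e3 := h3 (fun w => RA.cc u w 3) (u - 2) fun w => Iff.rfl
  have e4 := h4 (fun w => RA.cc u w 4) 0 (u + 3) fun w => Iff.rfl
  have e5 := h4 (fun w => RA.cc u w 5) 3 (u - 3) fun w => Iff.rfl
  have e6 := h4 (fun w => RA.cc u w 6) 1 (u + 4) fun w => Iff.rfl
  have e7 := h4 (fun w => RA.cc u w 7) 5 (u - 4) fun w => Iff.rfl
  rw [e0, e1, e2, e3, e4, e5, e6, e7]

open Classical in
/-- the adjacency operator of the graph at a core vertex: the eight vertices of a gadget cancel if `f` is constant on gadgets -/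
theorem adj_core (f : VA (8 * L) A → ZMod 2) (u : ZMod (8 * L)) :
    (∑ y, if (compE (ringG L) A).Adj (Sum.inl u) y then f y else 0) =
      (∑ w, if (ringG L).Adj u w then f (Sum.inl w) else 0) +
        ∑ q : {p : ZMod (8 * L) // p ∈ A} × Fin 8, if u = q.1.1 then f (Sum.inr q) else 0 := by
  rw [Fintype.sum_sum_type]
  congr 1
  exact Finset.sum_congr rfl fun q _ => if_congr Iff.rfl rfl rfl

end

end Pool.Agent.QAOA.CX
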