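import Pool.Agent.Lib_MP_debdb1_cz.Base
import Pool.Agent.Lib_MP_debdb1_cy.UbSym
import Pool.Agent.Lib_MP_debdb1_cy.Sym

/-!
# Piece ROTI: the symmetric graph is invariant under the rotation by one bead
-/

set_option autoImplicit false

namespace Pool.Agent.QAOA.CX

open Matrix Pool.Agent.QAOA

/-- the rotation by one bead of the core -/
def rho (L : ℕ) : Equiv.Perm (ZMod (8 * L)) := Equiv.addRight 8

theorem rho_mem (L : ℕ) [NeZero L] (p : ZMod (8 * L)) (hp : p ∈ posP L) : rho L p ∈ posP L := (sh L ⟨p, hp⟩).2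

theorem rotI_res (L : ℕ) (u : ZMod (8 * L)) : res L (u + 8) = res L u := by
  rw [map_add, res_eight, add_zero]

/-- the rotation preserves the ring -/
theorem rotI_ring (L : ℕ) (u w : ZMod (8 * L)) : (ringG L).Adj (u + 8) (w + 8) ↔ (ringG L).Adj u w := by
  have e : ∀ (a b c : ZMod (8 * L)), a + 8 = b + 8 + c ↔ a = b + c := by
    intro a b c
    rw [add_right_comm, add_left_inj]
  have e0 : ∀ (a b : ZMod (8 * L)), a + 8 ≠ b + 8 ↔ a ≠ b := fun a b => not_congr (add_left_inj 8)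
  change (u + 8 ≠ w + 8 ∧ (_ ∨ _ ∨ _ ∨ _ ∨ (_ ∧ _) ∨ (_ ∧ _) ∨ (_ ∧ _) ∨ (_ ∧ _))) ↔ _
  rw [e0, e, e, e, e, e, e, e, e, rotI_res, rotI_res]
  rfl

/-- the rotation of all qubits -/
def rotI_tau (L : ℕ) [NeZero L] : VA (8 * L) (posP L) ≃ VA (8 * L) (posP L) where
  toFun := CY.rotV (rho L) (rho_mem L)
  invFun v := match v with
    | Sum.inl u => Sum.inl (u - 8)
    | Sum.inr (p, s) => Sum.inr ((sh L).symm p, s)
  left_inv v := by
    rcases v with u | ⟨p, s⟩
    · exact congrArg Sum.inl (add_sub_cancel_right _ _)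
    · exact congrArg (fun q => Sum.inr (q, s)) ((sh L).symm_apply_apply p)
  right_inv v := by
    rcases v with u | ⟨p, s⟩
    · exact congrArg Sum.inl (sub_add_cancel _ _)
    · exact congrArg (fun q => Sum.inr (q, s)) ((sh L).apply_symm_apply p)

/-- the rotation is an automorphism of the symmetric graph -/
theorem rotI_aut (L : ℕ) [NeZero L] (x y : VA (8 * L) (posP L)) :
    (hatG L).Adj (rotI_tau L x) (rotI_tau L y) ↔ (hatG L).Adj x y := by
  rcases x with u | ⟨p, s⟩ <;> rcases y with w | ⟨q, t⟩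
  · exact rotI_ring L u w
  · change u + 8 = q.1 + 8 ↔ u = q.1
    rw [add_left_inj]
  · change w + 8 = p.1 + 8 ↔ w = p.1
    rw [add_left_inj]
  · change sh L p = sh L q ∧ GS.Adj s t ↔ p = q ∧ GS.Adj s t
    rw [(sh L).injective.eq_iff]

/-- the full algebra of the symmetric graph is invariant under the rotation -/
theorem genC_rot (L : ℕ) [NeZero L] (M : Op (VA (8 * L) (posP L))) (hM : M ∈ genC (HP (hatG L)) (HM (VA (8 * L) (posP L)))) :
    CY.rotM (rho L) (rho_mem L) M = M := CY.cj_genC (hatG L) (rotI_tau L) (rotI_aut L) M hM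

end Pool.Agent.QAOA.CX
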