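import Pool.Agent.Lib_MP_debdb1_cz.Box
import Pool.Agent.Lib_MP_debdb1_cz.RotI
import Pool.Agent.Lib_MP_debdb1_cz.PosE
import Pool.Agent.Lib_MP_debdb1_cz.Hide
import Pool.Agent.Lib_MP_debdb1_cx.Gad

/-!
# Piece UP: the upper bound
-/

set_option autoImplicit false

namespace Pool.Agent.QAOA.CX

open Matrix Pool.Agent.QAOA

theorem up_genC_left {R : Type*} [Ring R] [Module ℂ R] (A B : R) : A ∈ genC A B := by
  rw [genC, Submodule.mem_sInf]
  exact fun S hS => hS.1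

theorem upper_gam (L : ℕ) [Fact L.Prime] [NeZero L] : ∃ R : ℕ,
    L * R ≤ Module.finrank ℂ SS ^ L + L * Module.finrank ℂ SS ∧
      Module.finrank ℂ (genC (HP (gamG L)) (HM (VA (8 * L) ((posP L).erase 7)))) ≤ 1 + R * 4 ^ (8 * L) := by
  obtain ⟨n, e, hn, hfin, hind, hspan, h0, hs⟩ := SS_basis
  obtain ⟨pos, hpos⟩ := exists_pos L
  rw [hfin]
  refine CY.ub_sym (m := 8 * L) (A := posP L) L pos (rho L) (fun i => hpos i) e hind h0 hs (rho_mem L)
    ⟨7, seven_mem L⟩ (HP (hatG L)) (HP (gamG L)) (genC_rot L _ (up_genC_left _ _))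
    (hidE_HP (8 * L) (ringG L) (posP L) ⟨7, seven_mem L⟩) _ ?_
  intro z' hz'
  obtain ⟨z, hz, hzz⟩ := hidE_lift (8 * L) (ringG L) (posP L) ⟨7, seven_mem L⟩ z' hz'
  exact ⟨z, genC_rot L z hz, hzz, box_form (ringG L) (posP L) e hspan z hz⟩

end Pool.Agent.QAOA.CX
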